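import Mathlib

set_option autoImplicit false

/-!
# Project CF: Conjecture F of Hardy and Littlewood for `x ^ 2 + x + A` for almost all `A` (definitions)
-/

namespace Pool.Agent.P8H14.CF

open Finset Filter Topology

/-- `e(x) = exp(2 π i x)` -/
noncomputable def e (x : ℝ) : ℂ := Complex.exp (2 * Real.pi * x * Complex.I)

/-- the reduced residues modulo `q` (`{0}` for `q = 1`) -/
def rr (q : ℕ) : Finset ℕ := (range q).filter (fun a => a.Coprime q)

/-- the polynomial -/
def F (n : ℕ) : ℕ := n ^ 2 + n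

/-- the Gauss sum -/
noncomputable def G (a q : ℕ) : ℂ := ∑ b ∈ range q, e ((a : ℝ) * (F b : ℕ) / q)

/-- the inverse function of `t ^ 2 + t` -/
noncomputable def rt (t : ℝ) : ℝ := √(t + 1 / 4) - 1 / 2

/-- the density of the values of `F` at `k` -/
noncomputable def wt (k : ℕ) : ℝ := rt (k + 1) - rt k

/-- the exponential sum over the values `F n`, `x0 < n ≤ x` -/
noncomputable def T (x0 x : ℕ) (α : ℝ) : ℂ := ∑ n ∈ Ioc x0 x, e (α * (F n : ℕ))

/-- the smooth version of `T` near `0` -/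
noncomputable def V (x0 x : ℕ) (β : ℝ) : ℂ := ∑ k ∈ Ico (F x0) (F x), (wt k : ℂ) * e (β * k)

/-- the major arc model of `T` -/
noncomputable def TM (Q x0 x : ℕ) (α : ℝ) : ℂ :=
  ∑ q ∈ Icc 1 Q, ∑ a ∈ rr q, G a q / q * V x0 x (α - a / q)

/-- `log p` at the primes -/
noncomputable def th (n : ℕ) : ℝ := if n.Prime then Real.log n else 0

open Classical in
/-- the primitive characters modulo `r` -/
noncomputable def pr (r : ℕ) : Finset (DirichletCharacter ℂ r) := univ.filter fun χ => χ.IsPrimitive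

/-- the number of the solutions of `n ^ 2 + n + A ≡ 0` modulo `p` -/
def rho (A p : ℕ) : ℕ := ((range p).filter (fun b => p ∣ F b + A)).card

/-- the truncated singular series -/
noncomputable def sing (Q A : ℕ) : ℝ :=
  ∑ k ∈ Icc 1 Q, ((ArithmeticFunction.moebius k : ℤ) : ℝ) / (k.totient : ℝ) *
    ∏ p ∈ k.primeFactors, ((rho A p : ℝ) - 1)

/-- the character `n ↦ (n / (4 A - 1))` (for odd `A` it is `(Δ / n)`, `Δ = 1 - 4 A`, at all positive `n`) -/
def chi (A n : ℕ) : ℤ := jacobiSym (n : ℤ) (4 * A - 1)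

/-- `C` is the constant `C(Δ)`, `Δ = 1 - 4 A`, of Conjecture F: the limit of the partial products over the odd
primes -/
def IsC (A : ℕ) (C : ℝ) : Prop :=
  Tendsto (fun z : ℕ => ∏ p ∈ (Icc 3 z).filter Nat.Prime,
    (1 - (jacobiSym (1 - 4 * (A : ℤ)) p : ℝ) / ((p : ℝ) - 1))) atTop (𝓝 C)

end Pool.Agent.P8H14.CF
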