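import Pool.Agent.P8H13.GK.Sharp
import Pool.Agent.P8H14.QP.B7

set_option autoImplicit false

/-!
# Primes in primitive characters, double smoothing (the identity and the pointwise bound)
-/

open Complex Filter Topology Set MeasureTheory Metric
open scoped Real FourierTransform
open scoped ArithmeticFunction.vonMangoldt

namespace Pool.Agent.P8H14.CF

open Pool.Agent.W66 Pool.Agent.W66L
open Pool.Agent.P8H13.GK
open Pool.Agent.P8H14.QP (awc gg_char)

/-- the twist by the character itself -/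
lemma psi_tw {r : ℕ} [NeZero r] {ψ : DirichletCharacter ℂ r} (hψ : ψ ≠ 1) :
    Tw r ψ (fun n => ψ (n : ZMod r)) r where
  B0 := by positivity
  part := by
    intro d m
    have h1 : ∀ k ∈ Finset.Ioc 0 m, ψ ((d * k : ℕ) : ZMod r) = ψ (d : ZMod r) * ψ (k : ZMod r) := by
      intro k _
      rw [← map_mul]
      push_cast
      rfl
    rw [Finset.sum_congr rfl h1, ← Finset.mul_sum, norm_mul]
    have h2 := ψ.norm_le_one (d : ZMod r)
    have h3 : ‖∑ k ∈ Finset.Ioc 0 m, ψ (k : ZMod r)‖ ≤ r := by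
      have := Pool.Agent.H307R2.Ech_norm_le hψ 0 (m : ℝ)
      unfold Pool.Agent.H307R2.Ech at this
      rwa [Nat.floor_natCast] at this
    calc _ ≤ 1 * (r : ℝ) := mul_le_mul h2 h3 (norm_nonneg _) zero_le_one
      _ = r := one_mul _
  bd := by
    intro n
    have h2 := ψ.norm_le_one (n : ZMod r)
    have h3 : (1 : ℝ) ≤ r := by exact_mod_cast Nat.pos_of_ne_zero (NeZero.ne r)
    exact h2.trans h3
  mul := by
    intro p n _
    rw [← map_mul]
    push_cast
    rfl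

lemma awc_eq {r : ℕ} (ψ : DirichletCharacter ℂ r) (w : ℕ) :
    (fun l : ℕ => ψ (l : ZMod r) * ((aw w l / l : ℝ) : ℂ)) = awc ψ w := by
  funext l
  unfold awc
  ring

/-- the sum over primes twisted by `ψ` -/
noncomputable def TP {r : ℕ} (ψ : DirichletCharacter ℂ r) (h : ℝ) (N : ℕ) (z : ℝ) : ℂ :=
  TG (fun n => ψ (n : ZMod r)) h N z

/-- the second factor -/
noncomputable def gP {r : ℕ} (ψ : DirichletCharacter ℂ r) (w : ℕ) (h : ℝ) (N : ℕ) (x : ℝ) : ℂ :=
  ggC h (Finset.Ioc 0 N) (awc ψ w) x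

lemma gP_continuous {r : ℕ} (ψ : DirichletCharacter ℂ r) (w : ℕ) (h : ℝ) (N : ℕ) : Continuous (gP ψ w h N) :=
  ggC_continuous h _ _

lemma gP_compact {r : ℕ} (ψ : DirichletCharacter ℂ r) (w : ℕ) {h : ℝ} (hh : 0 < h) (N : ℕ) :
    HasCompactSupport (gP ψ w h N) := ggC_compact hh _ _

lemma TP_continuous {r : ℕ} (ψ : DirichletCharacter ℂ r) (h : ℝ) (N : ℕ) : Continuous (TP ψ h N) :=
  ggC_continuous h _ _

lemma TP_compact {r : ℕ} (ψ : DirichletCharacter ℂ r) {h : ℝ} (hh : 0 < h) (N : ℕ) :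
    HasCompactSupport (TP ψ h N) := ggC_compact hh _ _

lemma gP_zero {r : ℕ} (ψ : DirichletCharacter ℂ r) (w : ℕ) {h : ℝ} (hh : 0 < h) (N : ℕ) {x : ℝ} (hx : x ≤ -h) :
    gP ψ w h N x = 0 := Pool.Agent.P8H14.QP.ggC_zero hh _ _ hx

lemma TP_zero {r : ℕ} (ψ : DirichletCharacter ℂ r) {h : ℝ} (hh : 0 < h) (N : ℕ) {x : ℝ} (hx : x ≤ -h) :
    TP ψ h N x = 0 := Pool.Agent.P8H14.QP.ggC_zero hh (Finset.Ioc 0 N)
      (fun n => ψ (n : ZMod r) * ((Λ n / n : ℝ) : ℂ)) hx

/-- the trivial bound -/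
lemma TP_crude {r : ℕ} (ψ : DirichletCharacter ℂ r) {h : ℝ} (hh : 0 < h) (N : ℕ) (z : ℝ) :
    ‖TP ψ h N z‖ ≤ 2 * (1 + Real.log N) ^ 2 / h := by
  have h6 : 0 ≤ Real.log N := Real.log_natCast_nonneg N
  unfold TP TG
  refine (norm_sum_le _ _).trans ?_
  have h1 : ∀ n ∈ Finset.Ioc 0 N, ‖ψ (n : ZMod r) * ((Λ n / n : ℝ) : ℂ) * triC h (z - Real.log n)‖ ≤
      (if Real.log n < Real.log N + 1 then Λ n / n else 0) * (1 / h) := by
    intro n hn
    rw [Finset.mem_Ioc] at hn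
    have hn0 : (0 : ℝ) < n := by exact_mod_cast hn.1
    have hL : 0 ≤ Λ n := ArithmeticFunction.vonMangoldt_nonneg
    have h2 := Real.log_le_log hn0 (show (n : ℝ) ≤ N by exact_mod_cast hn.2)
    rw [if_pos (by linarith)]
    unfold triC
    rw [norm_mul, norm_mul, Complex.norm_real, Complex.norm_real, Real.norm_of_nonneg (div_nonneg hL hn0.le),
      Real.norm_of_nonneg (tri_nonneg hh _)]
    have h2 := tri_le hh (z - Real.log n)
    have h3 := ψ.norm_le_one (n : ZMod r)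
    have h7 := tri_nonneg hh (z - Real.log n)
    calc ‖ψ (n : ZMod r)‖ * (Λ n / n) * tri h (z - Real.log n) ≤ 1 * (Λ n / n) * (1 / h) := by
          have : 0 ≤ Λ n / n := div_nonneg hL hn0.le
          gcongr
      _ = _ := by ring
  refine (Finset.sum_le_sum h1).trans ?_
  rw [← Finset.sum_mul, ← Finset.sum_filter]
  have h2 := La_sum_le N (u := Real.log N + 1) (by positivity)
  calc _ ≤ (Real.log N + 1) * (1 + (Real.log N + 1)) * (1 / h) := by gcongr
    _ ≤ (Real.log N + 1) * (2 * (1 + Real.log N)) * (1 / h) := by gcongr; linarith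
    _ = _ := by ring

/-- the trivial bound of the second factor -/
lemma gP_crude {r : ℕ} [NeZero r] {ψ : DirichletCharacter ℂ r} (hψ : ψ ≠ 1) (w : ℕ) {h : ℝ} (hh : 0 < h) (N : ℕ)
    (hN : 1 ≤ N) (x : ℝ) : ‖gP ψ w h N x‖ ≤ r * ((1 + Real.log N) ^ 2 / h) := by
  have h1 := ggG_triv (psi_tw hψ).bd 1 hh x w N hN
  simp only [one_mul] at h1
  rw [awc_eq] at h1
  exact h1

lemma gP_small {r : ℕ} [NeZero r] {ψ : DirichletCharacter ℂ r} (hψ : ψ ≠ 1) {w : ℕ} (hw : 1 ≤ w) {h : ℝ}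
    (hh : 0 < h) (hh1 : h ≤ 1) (N : ℕ) {x : ℝ} (hx : Real.log w + 2 ≤ x) (hN : Real.exp (x + h) ≤ N) :
    ‖gP ψ w h N x‖ ≤ w * (r * (48 * 1 * (Real.exp (-x) / h ^ 2))) := by
  have h1 := ggG_small (G := fun n => ψ (n : ZMod r)) (psi_tw hψ).B0 (psi_tw hψ).part 1 hh hh1 w N hw hx hN
  simp only [one_mul] at h1
  rw [awc_eq] at h1
  exact h1

/-- the decomposition of the twisted sum -/
lemma TP_dec {r : ℕ} [NeZero r] {ψ : DirichletCharacter ℂ r} (hψ : ψ ≠ 1) {h z : ℝ} (hh : 0 < h) (hh1 : h ≤ 1)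
    (w N u0 U : ℕ) (hw : 1 ≤ w) (hu0 : 1 ≤ u0) (hu : u0 ≤ U)
    (hU : z + 2 ≤ U) (hN : Real.exp (U + 1) ≤ N) (hZ : Real.log w + u0 + 3 ≤ z) :
    ‖TP ψ h N z - ∑ u ∈ Finset.Icc u0 U, FX ψ u h N (Finset.Ioc 0 N) (awc ψ w) z‖ ≤
      w * (r * (48 * (z + 2) * (Real.exp (-z) / h ^ 2))) +
      2 * (u0 * (1 + u0) * (w * (r * (48 * 1 * (Real.exp (u0 - z) / h ^ 2))))) +
      Real.exp (-u0) * (r * Real.log N) * (r * ((1 + Real.log N) ^ 2 / h)) := by
  have h1 := KT_ineqG (psi_tw hψ) (z := z) (Z := z) hh hh1 w N u0 U hw le_rfl (by linarith) hu0 hu hU hN hZ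
  rw [awc_eq] at h1
  exact h1

/-- the convolution identity -/
lemma TP_id {r : ℕ} [NeZero r] {ψ : DirichletCharacter ℂ r} (hψ : ψ ≠ 1) {h z : ℝ} (hh : 0 < h) (hh1 : h ≤ 1)
    (w N : ℕ) (hw : 1 ≤ w) (hwN : w ≤ N) (hz : Real.log w + 2 ≤ z) (hzN : Real.exp (z + h) ≤ N) :
    ‖TP ψ h N z - ∑ m ∈ Finset.Ioc 0 N, ψ (m : ZMod r) * ((Λ m / m : ℝ) : ℂ) * gP ψ w h N (z - Real.log m)‖ ≤
      w * (r * (48 * (z + 2) * (Real.exp (-z) / h ^ 2))) := by
  set G : ℕ → ℂ := fun n => ψ (n : ZMod r) with hG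
  have T := psi_tw hψ
  set L := Finset.Ioc 0 N with hL
  have hlw : 0 ≤ Real.log w := Real.log_nonneg (by exact_mod_cast hw)
  have hT : TG G h N z = ∑ d ∈ L, ((muw w d / d : ℝ) : ℂ) * ∑ m ∈ L,
      (G (d * m) * ((ArithmeticFunction.log m / m : ℝ) : ℂ)) * triC h (z - Real.log d - Real.log m) +
      ∑ m ∈ L, ((Λ m / m : ℝ) : ℂ) * ggC h L (fun l => G (m * l) * ((aw w l / l : ℝ) : ℂ)) (z - Real.log m) := by
    have h1 : TG G h N z = ∑ n ∈ L, G n * (((muw w * ArithmeticFunction.log) n / n : ℝ) : ℂ) *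
          triC h (z - Real.log n) +
        ∑ n ∈ L, G n * (((ArithmeticFunction.vonMangoldt * aw w) n / n : ℝ) : ℂ) *
          triC h (z - Real.log n) := by
      unfold TG
      rw [← Finset.sum_add_distrib]
      refine Finset.sum_congr rfl fun n _ => ?_
      conv_lhs => rw [La_identity w]
      rw [ArithmeticFunction.add_apply]
      push_cast
      ring
    rw [h1, conv_sumG G _ _ h z hh N hzN, conv_sumG G _ _ h z hh N hzN]
    rfl
  have hI : ‖∑ d ∈ L, ((muw w d / d : ℝ) : ℂ) * ∑ m ∈ L,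
      (G (d * m) * ((ArithmeticFunction.log m / m : ℝ) : ℂ)) *
        triC h (z - Real.log d - Real.log m)‖ ≤
      w * (r * (48 * (z + 2) * (Real.exp (-z) / h ^ 2))) := by
    rw [muw_sumG w N hwN]
    have h3 := dsumG (G := G) T.B0 1 T.part (fun v => v) (z := z) (K := z + 2) hh hh1 w N hw (by linarith)
      (by linarith) (by
        intro v hv hv2
        rw [abs_of_nonneg hv]
        exact hv2) (by intro v w; exact le_rfl) hzN
    simp only [one_mul] at h3
    exact h3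
  have hS : ∑ m ∈ L, ((Λ m / m : ℝ) : ℂ) * ggC h L (fun l => G (m * l) * ((aw w l / l : ℝ) : ℂ)) (z - Real.log m) =
      ∑ m ∈ L, ψ (m : ZMod r) * ((Λ m / m : ℝ) : ℂ) * gP ψ w h N (z - Real.log m) := by
    refine Finset.sum_congr rfl fun m _ => ?_
    unfold gP ggC
    rw [Finset.mul_sum, Finset.mul_sum]
    refine Finset.sum_congr rfl fun l _ => ?_
    beta_reduce
    have h2 : G (m * l) = ψ (m : ZMod r) * ψ (l : ZMod r) := by
      rw [← map_mul]
      simp only [hG]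
      push_cast
      rfl
    rw [h2]
    unfold awc
    ring
  unfold TP
  rw [hT, hS, add_sub_cancel_right]
  exact hI

/-- the sum with two smoothings -/
noncomputable def T2 {r : ℕ} (ψ : DirichletCharacter ℂ r) (h : ℝ) (N : ℕ) (z : ℝ) : ℂ :=
  ∫ s, TP ψ h N (z - s) * triC h s

lemma conv_swap {f g : ℝ → ℂ} (y : ℝ) : ∫ s, g (y - s) * f s = ∫ s, f (y - s) * g s := by
  have h1 := integral_sub_left_eq_self (fun s => f (y - s) * g s) volume y
  rw [← h1]
  refine integral_congr_ae (Eventually.of_forall fun s => ?_)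
  simp only [sub_sub_cancel]
  ring

lemma int_cc {f : ℝ → ℂ} (hf : Continuous f) (hs : HasCompactSupport f) : Integrable f :=
  hf.integrable_of_hasCompactSupport hs

/-- commuting the two smoothings -/
lemma swap_sum {r : ℕ} (ψ : DirichletCharacter ℂ r) (w : ℕ) {h : ℝ} (hh : 0 < h) (N : ℕ) (z : ℝ) :
    ∫ s, (∑ m ∈ Finset.Ioc 0 N, ψ (m : ZMod r) * ((Λ m / m : ℝ) : ℂ) * gP ψ w h N (z - s - Real.log m)) * triC h s =
      ∫ s, TP ψ h N (z - s) * gP ψ w h N s := by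
  have h1 : ∀ s, (∑ m ∈ Finset.Ioc 0 N, ψ (m : ZMod r) * ((Λ m / m : ℝ) : ℂ) * gP ψ w h N (z - s - Real.log m)) *
      triC h s = ∑ m ∈ Finset.Ioc 0 N, ψ (m : ZMod r) * ((Λ m / m : ℝ) : ℂ) *
        (gP ψ w h N (z - Real.log m - s) * triC h s) := by
    intro s
    rw [Finset.sum_mul]
    refine Finset.sum_congr rfl fun m _ => ?_
    rw [show z - s - Real.log m = z - Real.log m - s by ring]
    ring
  have h2 : ∀ s, TP ψ h N (z - s) * gP ψ w h N s = ∑ m ∈ Finset.Ioc 0 N, ψ (m : ZMod r) * ((Λ m / m : ℝ) : ℂ) *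
        (triC h (z - Real.log m - s) * gP ψ w h N s) := by
    intro s
    unfold TP TG
    rw [Finset.sum_mul]
    refine Finset.sum_congr rfl fun m _ => ?_
    rw [show z - s - Real.log m = z - Real.log m - s by ring]
    ring
  simp_rw [h1, h2]
  rw [integral_finsetSum, integral_finsetSum]
  · refine Finset.sum_congr rfl fun m _ => ?_
    rw [integral_const_mul, integral_const_mul, conv_swap]
  · intro m _
    apply Integrable.const_mul
    apply int_cc
    · exact ((triC_continuous h).comp (by fun_prop)).mul (gP_continuous ψ w h N)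
    · exact (gP_compact ψ w hh N).mul_left
  · intro m _
    apply Integrable.const_mul
    apply int_cc
    · exact ((gP_continuous ψ w h N).comp (by fun_prop)).mul (triC_continuous h)
    · exact (triC_compact hh).mul_left

end Pool.Agent.P8H14.CF
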