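import Pool.Agent.P8H14.CF.E1

set_option autoImplicit false

/-!
# Primes in primitive characters, double smoothing (the bound of one smoothed sum)
-/

open Complex Filter Topology Set MeasureTheory Metric
open scoped Real FourierTransform
open scoped ArithmeticFunction.vonMangoldt

namespace Pool.Agent.P8H14.CF

open Pool.Agent.W66 Pool.Agent.W66L
open Pool.Agent.P8H13.GK
open Pool.Agent.P8H14.QP (awc gg_char)

lemma triC_norm {h : ℝ} (hh : 0 < h) (s : ℝ) : ‖triC h s‖ = tri h s := by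
  unfold triC
  rw [Complex.norm_real, Real.norm_of_nonneg (tri_nonneg hh s)]

/-- the first replacement -/
lemma T2_first {r : ℕ} [NeZero r] {ψ : DirichletCharacter ℂ r} (hψ : ψ ≠ 1) {h z : ℝ} (hh : 0 < h) (hh1 : h ≤ 1)
    (w N : ℕ) (hw : 1 ≤ w) (hwN : w ≤ N) (hz : Real.log w + 3 ≤ z) (hzN : Real.exp (z + 2) ≤ N) :
    ‖T2 ψ h N z - ∫ s, TP ψ h N (z - s) * gP ψ w h N s‖ ≤
      w * (r * (48 * (z + 3) * (Real.exp (1 - z) / h ^ 2))) := by
  set S : ℝ → ℂ := fun y => ∑ m ∈ Finset.Ioc 0 N, ψ (m : ZMod r) * ((Λ m / m : ℝ) : ℂ) * gP ψ w h N (y - Real.log m) with hS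
  have hSc : Continuous S := by
    rw [hS]
    apply continuous_finsetSum
    intro m _
    exact continuous_const.mul ((gP_continuous ψ w h N).comp (by fun_prop))
  have hlw : 0 ≤ Real.log w := Real.log_nonneg (by exact_mod_cast hw)
  have h1 := swap_sum ψ w hh N z
  rw [← h1]
  unfold T2
  have i1 : Integrable fun s => TP ψ h N (z - s) * triC h s := by
    apply int_cc
    · exact ((TP_continuous ψ h N).comp (by fun_prop)).mul (triC_continuous h)
    · exact (triC_compact hh).mul_left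
  have i2 : Integrable fun s => S (z - s) * triC h s := by
    apply int_cc
    · exact (hSc.comp (by fun_prop)).mul (triC_continuous h)
    · exact (triC_compact hh).mul_left
  have e1 : (∫ s, TP ψ h N (z - s) * triC h s) - ∫ s, S (z - s) * triC h s =
      ∫ s, (TP ψ h N (z - s) - S (z - s)) * triC h s := by
    rw [← integral_sub i1 i2]
    refine integral_congr_ae (Eventually.of_forall fun s => ?_)
    simp only
    ring
  have e2 : (∫ s, (∑ m ∈ Finset.Ioc 0 N, ψ (m : ZMod r) * ((Λ m / m : ℝ) : ℂ) * gP ψ w h N (z - s - Real.log m)) *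
      triC h s) = ∫ s, S (z - s) * triC h s := rfl
  rw [e2, e1]
  set e0 : ℝ := w * (r * (48 * (z + 3) * (Real.exp (1 - z) / h ^ 2))) with he0
  have h2 : ∀ s, ‖(TP ψ h N (z - s) - S (z - s)) * triC h s‖ ≤ e0 * tri h s := by
    intro s
    rw [norm_mul, triC_norm hh]
    by_cases hs : h ≤ |s|
    · rw [tri_zero_of hh hs, mul_zero, mul_zero]
    · rw [not_le, abs_lt] at hs
      apply mul_le_mul_of_nonneg_right _ (tri_nonneg hh s)
      have h3 := TP_id hψ hh hh1 w N hw hwN (z := z - s) (by linarith) (by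
        refine le_trans (Real.exp_le_exp.2 ?_) hzN
        linarith)
      refine h3.trans ?_
      have h4 : Real.exp (-(z - s)) ≤ Real.exp (1 - z) := Real.exp_le_exp.2 (by linarith)
      have h5 : z - s + 2 ≤ z + 3 := by linarith
      have h6 : 0 ≤ z - s + 2 := by linarith
      have h7 : 0 ≤ z + 3 := by linarith
      rw [he0]
      gcongr
  calc ‖∫ s, (TP ψ h N (z - s) - S (z - s)) * triC h s‖ ≤ ∫ s, e0 * tri h s := by
        apply norm_integral_le_of_norm_le ((tri_integrable hh).const_mul _)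
        exact Eventually.of_forall h2
    _ = e0 := by rw [integral_const_mul, integral_tri hh, mul_one]

/-- the pointwise bound of the product -/
lemma prod_point {r : ℕ} [NeZero r] {ψ : DirichletCharacter ℂ r} (hψ : ψ ≠ 1) {h z E : ℝ} (hh : 0 < h) (hh1 : h ≤ 1)
    (w N u0 U : ℕ) (hw : 1 ≤ w) (hu0 : 1 ≤ u0) (hu : u0 ≤ U) (hU : z + 3 ≤ U) (hN : Real.exp (U + 1) ≤ N)
    (hZ : Real.log w + u0 + 3 ≤ z / 2)
    (hE1 : (w * (r * (48 * (z + 3) * (Real.exp (-(z / 2)) / h ^ 2))) +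
      2 * (u0 * (1 + u0) * (w * (r * (48 * 1 * (Real.exp (u0 - z / 2) / h ^ 2))))) +
      Real.exp (-u0) * (r * Real.log N) * (r * ((1 + Real.log N) ^ 2 / h))) * (r * ((1 + Real.log N) ^ 2 / h)) ≤ E)
    (hE2 : 2 * (1 + Real.log N) ^ 2 / h * (w * (r * (48 * 1 * (Real.exp (-(z / 2)) / h ^ 2)))) ≤ E) (s : ℝ) :
    ‖TP ψ h N (z - s) * gP ψ w h N s‖ ≤
      ∑ u ∈ Finset.Icc u0 U, ‖FX ψ u h N (Finset.Ioc 0 N) (awc ψ w) (z - s)‖ * ‖gP ψ w h N s‖ +
        (Set.Icc (-h) (z + h)).indicator (fun _ => E) s := by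
  have hlw : 0 ≤ Real.log w := Real.log_nonneg (by exact_mod_cast hw)
  have hu0' : (1 : ℝ) ≤ u0 := by exact_mod_cast hu0
  have hN0 : (0 : ℝ) < N := lt_of_lt_of_le (Real.exp_pos _) hN
  have hNn : 1 ≤ N := by exact_mod_cast (Nat.cast_pos.1 hN0)
  have hlogN : 0 ≤ Real.log N := Real.log_natCast_nonneg N
  have hE0 : 0 ≤ E := le_trans (by positivity) hE2
  have hsum0 : 0 ≤ ∑ u ∈ Finset.Icc u0 U, ‖FX ψ u h N (Finset.Ioc 0 N) (awc ψ w) (z - s)‖ * ‖gP ψ w h N s‖ :=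
    Finset.sum_nonneg fun u _ => by positivity
  have hind : 0 ≤ (Set.Icc (-h) (z + h)).indicator (fun _ => E) s := indicator_nonneg (fun _ _ => hE0) _
  rcases le_or_gt s (-h) with h1 | h1
  · rw [gP_zero ψ w hh N h1, mul_zero, norm_zero]
    simp only [mul_zero, Finset.sum_const_zero, zero_add]
    exact hind
  rcases lt_or_ge (z + h) s with h2 | h2
  · rw [TP_zero ψ hh N (by linarith), zero_mul, norm_zero]
    exact add_nonneg hsum0 hind
  have hmem : s ∈ Set.Icc (-h) (z + h) := ⟨h1.le, h2⟩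
  rw [indicator_of_mem hmem]
  rcases le_or_gt s (z / 2) with h3 | h3
  · have h4 := TP_dec hψ hh hh1 w N u0 U hw hu0 hu (z := z - s) (by linarith) hN (by linarith)
    set Y := TP ψ h N (z - s) with hY
    set F := ∑ u ∈ Finset.Icc u0 U, FX ψ u h N (Finset.Ioc 0 N) (awc ψ w) (z - s) with hF
    have h5 : ‖Y - F‖ ≤ w * (r * (48 * (z + 3) * (Real.exp (-(z / 2)) / h ^ 2))) +
      2 * (u0 * (1 + u0) * (w * (r * (48 * 1 * (Real.exp (u0 - z / 2) / h ^ 2))))) +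
      Real.exp (-u0) * (r * Real.log N) * (r * ((1 + Real.log N) ^ 2 / h)) := by
      refine h4.trans ?_
      have e1 : Real.exp (-(z - s)) ≤ Real.exp (-(z / 2)) := Real.exp_le_exp.2 (by linarith)
      have e2 : Real.exp (u0 - (z - s)) ≤ Real.exp (u0 - z / 2) := Real.exp_le_exp.2 (by linarith)
      have e3 : z - s + 2 ≤ z + 3 := by linarith
      have e4 : 0 ≤ z - s + 2 := by linarith
      have e5 : 0 ≤ z + 3 := by linarith
      gcongr
    have h6 := gP_crude hψ w hh N hNn s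
    have h7 : ‖F‖ * ‖gP ψ w h N s‖ ≤ ∑ u ∈ Finset.Icc u0 U,
        ‖FX ψ u h N (Finset.Ioc 0 N) (awc ψ w) (z - s)‖ * ‖gP ψ w h N s‖ := by
      rw [← Finset.sum_mul]
      exact mul_le_mul_of_nonneg_right (norm_sum_le _ _) (norm_nonneg _)
    have h8 : ‖Y - F‖ * ‖gP ψ w h N s‖ ≤ E := by
      refine le_trans (mul_le_mul h5 h6 (norm_nonneg _) ?_) hE1
      exact (norm_nonneg _).trans h5
    rw [norm_mul]
    have h9 : ‖Y‖ ≤ ‖F‖ + ‖Y - F‖ := by
      have := norm_add_le F (Y - F)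
      rwa [add_sub_cancel] at this
    calc ‖Y‖ * ‖gP ψ w h N s‖ ≤ (‖F‖ + ‖Y - F‖) * ‖gP ψ w h N s‖ :=
          mul_le_mul_of_nonneg_right h9 (norm_nonneg _)
      _ = ‖F‖ * ‖gP ψ w h N s‖ + ‖Y - F‖ * ‖gP ψ w h N s‖ := by ring
      _ ≤ _ := add_le_add h7 h8
  · have h4 := TP_crude ψ hh N (z - s)
    have h5 := gP_small hψ hw hh hh1 N (x := s) (by linarith) (by
      refine le_trans (Real.exp_le_exp.2 ?_) hN
      linarith)
    have h6 : ‖gP ψ w h N s‖ ≤ w * (r * (48 * 1 * (Real.exp (-(z / 2)) / h ^ 2))) := by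
      refine h5.trans ?_
      have : Real.exp (-s) ≤ Real.exp (-(z / 2)) := Real.exp_le_exp.2 (by linarith)
      gcongr
    rw [norm_mul]
    have h7 : ‖TP ψ h N (z - s)‖ * ‖gP ψ w h N s‖ ≤ E :=
      le_trans (mul_le_mul h4 h6 (norm_nonneg _) (by positivity)) hE2
    linarith

/-- the energy of the second factor -/
lemma gP_sq {r : ℕ} (ψ : DirichletCharacter ℂ r) (w : ℕ) {h : ℝ} (hh : 0 < h) (N : ℕ) :
    ∫ x, ‖gP ψ w h N x‖ ^ 2 ≤ ∫ x, ‖bbC h (Finset.Ioc 0 N) (awc ψ w) x‖ ^ 2 := by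
  set L := Finset.Ioc 0 N with hL
  set c := awc ψ w with hc
  have hFc := gP_continuous ψ w h N
  have hFs := gP_compact ψ w hh N
  have hbL := bbC_memLp h L c
  have hFL : MemLp (gP ψ w h N) 2 := hFc.memLp_of_hasCompactSupport hFs
  have hFint : Integrable (gP ψ w h N) := hFc.integrable_of_hasCompactSupport hFs
  have p1 := Pool.Agent.Helper76.NormalHP.plancherel_lintegral _ hFint hFL
  have p2 := Pool.Agent.Helper76.NormalHP.plancherel_lintegral _ (bbC_integrable h L c) hbL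
  have hF : ∀ ξ, 𝓕 (gP ψ w h N) ξ = 𝓕 (boxC h) ξ * 𝓕 (bbC h L c) ξ := by
    intro ξ
    have h1 : 𝓕 (ggC h L c) ξ =
        (∑ l ∈ L, c l * cexp (-(((2 * π * ξ * Real.log l : ℝ) : ℂ) * I))) * 𝓕 (boxC h) ξ ^ 2 := by
      rw [← four_triC hh, ← four_sum (triC_integrable hh)]
      rfl
    have h2 : 𝓕 (bbC h L c) ξ =
        (∑ l ∈ L, c l * cexp (-(((2 * π * ξ * Real.log l : ℝ) : ℂ) * I))) * 𝓕 (boxC h) ξ := by
      rw [← four_sum (boxC_integrable h)]
      rfl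
    have h3 : 𝓕 (gP ψ w h N) ξ = 𝓕 (ggC h L c) ξ := rfl
    rw [h3, h1, h2]
    ring
  have key : ∫⁻ x, ‖gP ψ w h N x‖ₑ ^ 2 ≤ ∫⁻ x, ‖bbC h L c x‖ₑ ^ 2 := by
    rw [← p1, ← p2]
    apply lintegral_mono
    intro ξ
    simp only
    rw [hF, enorm_mul, mul_pow]
    have h4 : ‖𝓕 (boxC h) ξ‖ₑ ≤ 1 := by
      rw [← ofReal_norm, ← ENNReal.ofReal_one]
      exact ENNReal.ofReal_le_ofReal (norm_four_box_le_one hh ξ)
    calc ‖𝓕 (boxC h) ξ‖ₑ ^ 2 * ‖𝓕 (bbC h L c) ξ‖ₑ ^ 2 ≤ 1 ^ 2 * ‖𝓕 (bbC h L c) ξ‖ₑ ^ 2 := by gcongr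
      _ = _ := by rw [one_pow, one_mul]
  rw [lint_sq hFL, lint_sq hbL] at key
  exact (ENNReal.ofReal_le_ofReal_iff (integral_nonneg fun x => by positivity)).1 key

/-- one piece -/
lemma piece_le {r : ℕ} [NeZero r] (ψ : DirichletCharacter ℂ r) (w : ℕ) {h z M : ℝ} (hh : 0 < h) (N : ℕ) {u : ℝ}
    (hN : Real.exp (u + 1) ≤ N) (hM0 : 0 < M)
    (hM : ∀ ξ : ℝ, ‖PX ψ u (2 * π * ξ)‖ * ‖𝓕 (boxC h) ξ‖ ≤ M) :
    Integrable (fun s => ‖FX ψ u h N (Finset.Ioc 0 N) (awc ψ w) (z - s)‖ * ‖gP ψ w h N s‖) ∧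
    ∫ s, ‖FX ψ u h N (Finset.Ioc 0 N) (awc ψ w) (z - s)‖ * ‖gP ψ w h N s‖ ≤
      M * ∫ x, ‖bbC h (Finset.Ioc 0 N) (awc ψ w) x‖ ^ 2 := by
  set L := Finset.Ioc 0 N with hL
  set c := awc ψ w with hc
  set F : ℝ → ℂ := FX ψ u h N L c with hF
  have hFc : Continuous F := FX_continuous ψ h u N L c
  have hFs : HasCompactSupport F := FX_compact ψ hh u N L c
  have hgc := gP_continuous ψ w h N
  have hgs := gP_compact ψ w hh N
  have hF2 : Integrable fun x => ‖F x‖ ^ 2 := FX_sq_integrable ψ hh u N L c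
  have hg2 : Integrable fun x => ‖gP ψ w h N x‖ ^ 2 := by
    apply (hgc.norm.pow 2).integrable_of_hasCompactSupport
    have h1 := hgs.norm
    have h2 : ((fun x => ‖gP ψ w h N x‖) ^ 2) = fun x => ‖gP ψ w h N x‖ * ‖gP ψ w h N x‖ := by
      ext x
      simp only [Pi.pow_apply]
      ring
    rw [h2]
    exact h1.mul_left
  have hFz : Integrable fun s => ‖F (z - s)‖ ^ 2 := hF2.comp_sub_left z
  have hFzi : ∫ s, ‖F (z - s)‖ ^ 2 = ∫ s, ‖F s‖ ^ 2 := integral_sub_left_eq_self (fun s => ‖F s‖ ^ 2) volume z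
  have hprod : Integrable fun s => ‖F (z - s)‖ * ‖gP ψ w h N s‖ := by
    apply Continuous.integrable_of_hasCompactSupport
    · exact (hFc.comp (by fun_prop : Continuous fun s => z - s)).norm.mul hgc.norm
    · exact hgs.norm.mul_left
  refine ⟨hprod, ?_⟩
  have hd := dispersionX ψ hh N hN L c hM0.le hM
  have hg := gP_sq ψ w hh N
  set I := ∫ x, ‖bbC h L c x‖ ^ 2 with hI
  have hpt : ∀ s, ‖F (z - s)‖ * ‖gP ψ w h N s‖ ≤ (1 / (2 * M)) * ‖F (z - s)‖ ^ 2 + (M / 2) * ‖gP ψ w h N s‖ ^ 2 := by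
    intro s
    set a := ‖F (z - s)‖
    set b := ‖gP ψ w h N s‖
    have h1 : 0 ≤ (a - M * b) ^ 2 := sq_nonneg _
    have h2 : (1 / (2 * M)) * a ^ 2 + (M / 2) * b ^ 2 - a * b = (a - M * b) ^ 2 / (2 * M) := by
      field_simp
      ring
    have h3 : 0 ≤ (a - M * b) ^ 2 / (2 * M) := by positivity
    linarith
  calc ∫ s, ‖F (z - s)‖ * ‖gP ψ w h N s‖ ≤ ∫ s, ((1 / (2 * M)) * ‖F (z - s)‖ ^ 2 + (M / 2) * ‖gP ψ w h N s‖ ^ 2) :=
        integral_mono hprod ((hFz.const_mul _).add (hg2.const_mul _)) hpt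
    _ = (1 / (2 * M)) * (∫ s, ‖F s‖ ^ 2) + (M / 2) * (∫ s, ‖gP ψ w h N s‖ ^ 2) := by
        rw [integral_add (hFz.const_mul _) (hg2.const_mul _), integral_const_mul, integral_const_mul, hFzi]
    _ ≤ (1 / (2 * M)) * (M ^ 2 * I) + (M / 2) * I := by gcongr
    _ = M * I := by field_simp; ring

/-- **the smoothed sum of one character** -/
theorem T2_le {r : ℕ} [NeZero r] {ψ : DirichletCharacter ℂ r} (hψ : ψ ≠ 1) {h z E M : ℝ} (hh : 0 < h) (hh1 : h ≤ 1)
    (w N u0 U : ℕ) (hw : 1 ≤ w) (hu0 : 1 ≤ u0) (hu : u0 ≤ U) (hU : z + 3 ≤ U) (hN : Real.exp (U + 1) ≤ N)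
    (hZ : Real.log w + u0 + 3 ≤ z / 2)
    (hE1 : (w * (r * (48 * (z + 3) * (Real.exp (-(z / 2)) / h ^ 2))) +
      2 * (u0 * (1 + u0) * (w * (r * (48 * 1 * (Real.exp (u0 - z / 2) / h ^ 2))))) +
      Real.exp (-u0) * (r * Real.log N) * (r * ((1 + Real.log N) ^ 2 / h))) * (r * ((1 + Real.log N) ^ 2 / h)) ≤ E)
    (hE2 : 2 * (1 + Real.log N) ^ 2 / h * (w * (r * (48 * 1 * (Real.exp (-(z / 2)) / h ^ 2)))) ≤ E)
    (hE3 : w * (r * (48 * (z + 3) * (Real.exp (1 - z) / h ^ 2))) ≤ E)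
    (hM0 : 0 < M) (hM : ∀ u ∈ Finset.Icc u0 U, ∀ ξ : ℝ, ‖PX ψ u (2 * π * ξ)‖ * ‖𝓕 (boxC h) ξ‖ ≤ M) :
    ‖T2 ψ h N z‖ ≤ (z + 3) * E + (U + 1) * (M * ∫ x, ‖bbC h (Finset.Ioc 0 N) (awc ψ w) x‖ ^ 2) := by
  have hlw : 0 ≤ Real.log w := Real.log_nonneg (by exact_mod_cast hw)
  have hu0' : (1 : ℝ) ≤ u0 := by exact_mod_cast hu0
  have hN0 : (0 : ℝ) < N := lt_of_lt_of_le (Real.exp_pos _) hN
  have hlogN : 0 ≤ Real.log N := Real.log_natCast_nonneg N
  have hE0 : 0 ≤ E := le_trans (by positivity) hE2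
  have hz8 : 8 ≤ z := by linarith
  have hwN : w ≤ N := by
    have h1 : (w : ℝ) ≤ N := by
      refine le_trans ?_ hN
      rw [← Real.log_le_iff_le_exp (by exact_mod_cast hw)]
      linarith
    exact_mod_cast h1
  have h1 := T2_first hψ hh hh1 w N hw hwN (z := z) (by linarith) (by
    refine le_trans (Real.exp_le_exp.2 ?_) hN
    linarith)
  set I := ∫ x, ‖bbC h (Finset.Ioc 0 N) (awc ψ w) x‖ ^ 2 with hI
  have hpiece : ∀ u ∈ Finset.Icc u0 U,
      Integrable (fun s => ‖FX ψ u h N (Finset.Ioc 0 N) (awc ψ w) (z - s)‖ * ‖gP ψ w h N s‖) ∧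
      ∫ s, ‖FX ψ u h N (Finset.Ioc 0 N) (awc ψ w) (z - s)‖ * ‖gP ψ w h N s‖ ≤ M * I := by
    intro u hu
    apply piece_le ψ w hh N _ hM0 (hM u hu)
    refine le_trans (Real.exp_le_exp.2 ?_) hN
    have : (u : ℝ) ≤ U := by exact_mod_cast (Finset.mem_Icc.1 hu).2
    linarith
  have hind : Integrable ((Set.Icc (-h) (z + h)).indicator fun _ : ℝ => E) := by
    rw [integrable_indicator_iff measurableSet_Icc]
    exact integrableOn_const (by simp) (by simp)
  have h2 : ‖∫ s, TP ψ h N (z - s) * gP ψ w h N s‖ ≤ (z + 2) * E + (U + 1) * (M * I) := by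
    calc ‖∫ s, TP ψ h N (z - s) * gP ψ w h N s‖ ≤ ∫ s, (∑ u ∈ Finset.Icc u0 U,
          ‖FX ψ u h N (Finset.Ioc 0 N) (awc ψ w) (z - s)‖ * ‖gP ψ w h N s‖ +
          (Set.Icc (-h) (z + h)).indicator (fun _ => E) s) := by
          apply norm_integral_le_of_norm_le
          · exact (integrable_finsetSum _ fun u hu => (hpiece u hu).1).add hind
          · exact Eventually.of_forall (prod_point hψ hh hh1 w N u0 U hw hu0 hu hU hN hZ hE1 hE2)
      _ = ∑ u ∈ Finset.Icc u0 U, (∫ s, ‖FX ψ u h N (Finset.Ioc 0 N) (awc ψ w) (z - s)‖ * ‖gP ψ w h N s‖) +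
          (z + 2 * h) * E := by
          rw [integral_add (integrable_finsetSum _ fun u hu => (hpiece u hu).1) hind,
            integral_finsetSum _ fun u hu => (hpiece u hu).1, integral_indicator measurableSet_Icc,
            setIntegral_const]
          congr 1
          rw [Real.volume_real_Icc_of_le (by linarith), smul_eq_mul]
          ring
      _ ≤ ∑ u ∈ Finset.Icc u0 U, M * I + (z + 2) * E := by
          apply add_le_add (Finset.sum_le_sum fun u hu => (hpiece u hu).2)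
          apply mul_le_mul_of_nonneg_right _ hE0
          linarith
      _ ≤ _ := by
          rw [Finset.sum_const, nsmul_eq_mul, add_comm]
          have hI0 : 0 ≤ I := integral_nonneg fun x => by positivity
          have : ((Finset.Icc u0 U).card : ℝ) ≤ U + 1 := by
            rw [Nat.card_Icc]
            have : U + 1 - u0 ≤ U + 1 := Nat.sub_le _ _
            exact_mod_cast this
          gcongr
  have h3 : ‖T2 ψ h N z‖ ≤ ‖T2 ψ h N z - ∫ s, TP ψ h N (z - s) * gP ψ w h N s‖ +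
      ‖∫ s, TP ψ h N (z - s) * gP ψ w h N s‖ := by
    have := norm_add_le (T2 ψ h N z - ∫ s, TP ψ h N (z - s) * gP ψ w h N s) (∫ s, TP ψ h N (z - s) * gP ψ w h N s)
    rwa [sub_add_cancel] at this
  have h4 := h1.trans hE3
  calc ‖T2 ψ h N z‖ ≤ E + ((z + 2) * E + (U + 1) * (M * I)) := h3.trans (add_le_add h4 h2)
    _ = _ := by ring

end Pool.Agent.P8H14.CF
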