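import Pool.Agent.P8H14.CF.E2

set_option autoImplicit false

/-!
# Primes in primitive characters: sums over intervals
-/

open Complex Filter Topology Set MeasureTheory Metric
open scoped Real FourierTransform
open scoped ArithmeticFunction.vonMangoldt

namespace Pool.Agent.P8H14.CF

open Pool.Agent.W66 Pool.Agent.W66L
open Pool.Agent.P8H13.GK
open Pool.Agent.P8H14.QP (awc gg_char)

/-- the smoothed sum near `log l` -/
lemma TP_win {r : ℕ} (ψ : DirichletCharacter ℂ r) {h : ℝ} (hh : 0 < h) (hh2 : 2 * h ≤ 1) (N : ℕ) {l : ℕ}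
    (hl : 1 ≤ h * l) {z : ℝ} (hz : |z - Real.log l| ≤ h) :
    ‖((Real.exp z : ℝ) : ℂ) * TP ψ h N z‖ ≤ 42 * (l * Real.log N) := by
  have hl0 : 0 < l := by
    by_contra hc
    have : l = 0 := by omega
    rw [this] at hl
    norm_num at hl
  have h6 : 0 ≤ Real.log N := Real.log_natCast_nonneg N
  unfold TP TG
  rw [Finset.mul_sum]
  refine (norm_sum_le _ _).trans ?_
  have h1 : ∀ n ∈ Finset.Ioc 0 N, ‖((Real.exp z : ℝ) : ℂ) * (ψ (n : ZMod r) * ((Λ n / n : ℝ) : ℂ) * triC h (z - Real.log n))‖ ≤
      (if |Real.log l - Real.log n| < 2 * h then 3 * Real.log N / h else 0) := by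
    intro n hn
    rw [Finset.mem_Ioc] at hn
    have hn0 : (0 : ℝ) < n := by exact_mod_cast hn.1
    by_cases ht : h ≤ |z - Real.log n|
    · unfold triC
      rw [tri_zero_of hh ht]
      simp only [Complex.ofReal_zero, mul_zero, norm_zero]
      split_ifs
      · positivity
      · exact le_rfl
    · rw [not_le] at ht
      have h2 : |Real.log l - Real.log n| < 2 * h := by
        have e : Real.log l - Real.log n = -(z - Real.log l) + (z - Real.log n) := by ring
        rw [e]
        refine lt_of_le_of_lt (abs_add_le _ _) ?_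
        rw [abs_neg]
        linarith
      rw [if_pos h2]
      have hL : 0 ≤ Λ n := ArithmeticFunction.vonMangoldt_nonneg
      have hL2 : Λ n ≤ Real.log N :=
        ArithmeticFunction.vonMangoldt_le_log.trans (Real.log_le_log hn0 (by exact_mod_cast hn.2))
      rw [norm_mul, norm_mul, norm_mul, triC_norm hh, Complex.norm_real, Complex.norm_real,
        Real.norm_of_nonneg (div_nonneg hL hn0.le), Real.norm_of_nonneg (Real.exp_pos z).le]
      have h3 := ψ.norm_le_one (n : ZMod r)
      have h4 := tri_le hh (z - Real.log n)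
      have h5 := tri_nonneg hh (z - Real.log n)
      have h7 : Real.exp z / n ≤ 3 := by
        have e : Real.exp z / n = Real.exp (z - Real.log n) := by
          rw [Real.exp_sub, Real.exp_log hn0]
        rw [e]
        have h8 : z - Real.log n ≤ 1 := by
          have := (abs_lt.1 ht).2
          linarith
        have := Real.exp_le_exp.2 h8
        linarith [Real.exp_one_lt_d9]
      have h9 : 0 ≤ Real.exp z / n := by positivity
      calc Real.exp z * (‖ψ (n : ZMod r)‖ * (Λ n / n) * tri h (z - Real.log n)) =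
          ‖ψ (n : ZMod r)‖ * (Real.exp z / n) * Λ n * tri h (z - Real.log n) := by ring
        _ ≤ 1 * 3 * Real.log N * (1 / h) := by gcongr
        _ = _ := by ring
  refine (Finset.sum_le_sum h1).trans ?_
  rw [← Finset.sum_filter, Finset.sum_const, nsmul_eq_mul]
  have h2 := card_window (h := 2 * h) (by positivity) hh2 (Finset.Ioc 0 N) l hl0
    (fun m hm => (Finset.mem_Ioc.1 hm).1) (by
      have : 0 ≤ h * l := by positivity
      nlinarith)
  calc _ ≤ 7 * (2 * h * l) * (3 * Real.log N / h) := by gcongr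
    _ = _ := by field_simp; ring

/-- the shifted integral -/
lemma shift_near {r : ℕ} (ψ : DirichletCharacter ℂ r) {h : ℝ} (hh : 0 < h) (hh2 : 2 * h ≤ 1) {N lo hi : ℕ}
    (hlo : 1 ≤ h * lo) (hlh : lo ≤ hi) (hN : 3 * hi ≤ N) {s : ℝ} (hs : |s| ≤ h) :
    ‖(∫ z in (Real.log lo)..(Real.log hi), ((Real.exp z : ℝ) : ℂ) * TP ψ h N (z - s)) -
      ∑ n ∈ Finset.Ico lo hi, ψ (n : ZMod r) * ((Λ n : ℝ) : ℂ)‖ ≤ 320 * h * hi * Real.log N := by
  have hh1 : h ≤ 1 := by linarith
  have hlo1 : 1 ≤ lo := by
    by_contra hc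
    have : lo = 0 := by omega
    rw [this] at hlo
    norm_num at hlo
  have hhi1 : 1 ≤ hi := hlo1.trans hlh
  have hlohi : (lo : ℝ) ≤ hi := by exact_mod_cast hlh
  have hhih : 1 ≤ h * hi := hlo.trans (mul_le_mul_of_nonneg_left hlohi hh.le)
  have hLg : 0 ≤ Real.log N := Real.log_natCast_nonneg _
  set a := Real.log lo with ha
  set b := Real.log hi with hb
  set f : ℝ → ℂ := fun y => ((Real.exp y : ℝ) : ℂ) * TP ψ h N y with hf
  have hfc : Continuous f := by
    have := TP_continuous ψ h N
    rw [hf]
    fun_prop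
  set X : ℂ := ∑ n ∈ Finset.Ico lo hi, ψ (n : ZMod r) * ((Λ n : ℝ) : ℂ) with hX
  have hD : ‖(∫ z in a..b, f z) - X‖ ≤ 20 * h * hi * Real.log N :=
    sharp_one hh hh1 hlo hlh hN (fun n => ψ (n : ZMod r)) (fun n => ψ.norm_le_one _)
  have hXn : ‖X‖ ≤ hi * Real.log N := by
    refine (norm_sum_le _ _).trans ?_
    have h1 : ∀ n ∈ Finset.Ico lo hi, ‖ψ (n : ZMod r) * ((Λ n : ℝ) : ℂ)‖ ≤ Real.log N := by
      intro n hn
      rw [Finset.mem_Ico] at hn
      have hn0 : (0 : ℝ) < n := by
        have : 0 < n := by omega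
        exact_mod_cast this
      have hnN : (n : ℝ) ≤ N := by
        have : n ≤ N := by omega
        exact_mod_cast this
      have hL : 0 ≤ Λ n := ArithmeticFunction.vonMangoldt_nonneg
      have hL2 : Λ n ≤ Real.log N := ArithmeticFunction.vonMangoldt_le_log.trans (Real.log_le_log hn0 hnN)
      rw [norm_mul, Complex.norm_real, Real.norm_of_nonneg hL]
      calc _ ≤ 1 * Real.log N := mul_le_mul (ψ.norm_le_one _) hL2 hL zero_le_one
        _ = _ := one_mul _
    refine (Finset.sum_le_card_nsmul _ _ _ h1).trans ?_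
    rw [nsmul_eq_mul, Nat.card_Ico]
    have : ((hi - lo : ℕ) : ℝ) ≤ hi := by exact_mod_cast Nat.sub_le _ _
    gcongr
  have e1 : (∫ z in a..b, ((Real.exp z : ℝ) : ℂ) * TP ψ h N (z - s)) =
      ((Real.exp s : ℝ) : ℂ) * ∫ z in (a - s)..(b - s), f z := by
    rw [← intervalIntegral.integral_const_mul,
      ← intervalIntegral.integral_comp_sub_right (fun y => ((Real.exp s : ℝ) : ℂ) * f y) s]
    apply intervalIntegral.integral_congr
    intro z _
    simp only [hf]
    rw [← mul_assoc, ← Complex.ofReal_mul, ← Real.exp_add]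
    congr 3
    ring
  have hw : ∀ (l : ℕ), 1 ≤ h * l → ‖∫ z in (Real.log l - s)..(Real.log l), f z‖ ≤ 42 * (l * Real.log N) * h := by
    intro l hl
    have h1 := intervalIntegral.norm_integral_le_of_norm_le_const (a := Real.log l - s) (b := Real.log l) (f := f)
      (C := 42 * (l * Real.log N)) (by
        intro z hz
        apply TP_win ψ hh hh2 N hl
        rw [uIoc, Set.mem_Ioc] at hz
        rw [abs_le] at hs ⊢
        obtain ⟨h1, h2⟩ := hz
        have h3 : Real.log l - h ≤ min (Real.log l - s) (Real.log l) := le_min (by linarith) (by linarith)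
        have h4 : max (Real.log l - s) (Real.log l) ≤ Real.log l + h := max_le (by linarith) (by linarith)
        constructor <;> linarith)
    refine h1.trans ?_
    have h2 : |Real.log l - (Real.log l - s)| ≤ h := by
      rw [sub_sub_cancel]; exact hs
    gcongr
  have e2 : (∫ z in (a - s)..(b - s), f z) - (∫ z in a..b, f z) =
      (∫ z in (a - s)..a, f z) - ∫ z in (b - s)..b, f z :=
    intervalIntegral.integral_interval_sub_interval_comm (hfc.intervalIntegrable _ _) (hfc.intervalIntegrable _ _)
      (hfc.intervalIntegrable _ _)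
  have hP : ‖(∫ z in (a - s)..(b - s), f z) - (∫ z in a..b, f z)‖ ≤ 84 * (h * hi * Real.log N) := by
    rw [e2]
    have h1 := hw lo hlo
    have h2 := hw hi hhih
    have h3 : 42 * (lo * Real.log N) * h ≤ 42 * (hi * Real.log N) * h := by gcongr
    calc _ ≤ 42 * (lo * Real.log N) * h + 42 * (hi * Real.log N) * h := (norm_sub_le _ _).trans (add_le_add h1 h2)
      _ ≤ 42 * (hi * Real.log N) * h + 42 * (hi * Real.log N) * h := by linarith
      _ = _ := by ring
  rw [e1]
  set P := ∫ z in (a - s)..(b - s), f z with hPd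
  set D := ∫ z in a..b, f z with hDd
  have hes : ‖((Real.exp s : ℝ) : ℂ)‖ ≤ 3 := by
    rw [Complex.norm_real, Real.norm_of_nonneg (Real.exp_pos s).le]
    have h8 : s ≤ 1 := by
      have := (abs_le.1 hs).2
      linarith
    have := Real.exp_le_exp.2 h8
    linarith [Real.exp_one_lt_d9]
  have hes1 : ‖((Real.exp s : ℝ) : ℂ) - 1‖ ≤ 2 * h := by
    have e : ((Real.exp s : ℝ) : ℂ) - 1 = ((Real.exp s - 1 : ℝ) : ℂ) := by push_cast; ring
    rw [e, Complex.norm_real, Real.norm_eq_abs]
    have := Real.abs_exp_sub_one_le (x := s) (by linarith)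
    linarith
  have hDn : ‖D‖ ≤ 11 * (hi * Real.log N) := by
    have h1 : ‖D‖ ≤ ‖D - X‖ + ‖X‖ := by
      have := norm_add_le (D - X) X
      rwa [sub_add_cancel] at this
    have h2 : 20 * h * hi * Real.log N ≤ 10 * (hi * Real.log N) := by
      have h3 : 0 ≤ hi * Real.log N := by positivity
      have h4 : 20 * h * hi * Real.log N = (2 * h) * (10 * (hi * Real.log N)) := by ring
      rw [h4]
      calc (2 * h) * (10 * (hi * Real.log N)) ≤ 1 * (10 * (hi * Real.log N)) := by gcongr
        _ = _ := one_mul _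
    linarith
  have e3 : ((Real.exp s : ℝ) : ℂ) * P - X = ((Real.exp s : ℝ) : ℂ) * (P - D) + (((Real.exp s : ℝ) : ℂ) - 1) * D + (D - X) := by
    ring
  rw [e3]
  have k1 : ‖((Real.exp s : ℝ) : ℂ) * (P - D)‖ ≤ 3 * (84 * (h * hi * Real.log N)) := by
    rw [norm_mul]
    exact mul_le_mul hes hP (norm_nonneg _) (by norm_num)
  have k2 : ‖(((Real.exp s : ℝ) : ℂ) - 1) * D‖ ≤ 2 * h * (11 * (hi * Real.log N)) := by
    rw [norm_mul]
    exact mul_le_mul hes1 hDn (norm_nonneg _) (by positivity)
  have k3 := (norm_add_le (((Real.exp s : ℝ) : ℂ) * (P - D) + (((Real.exp s : ℝ) : ℂ) - 1) * D) (D - X)).trans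
    (add_le_add (norm_add_le _ _) le_rfl)
  have k4 : 0 ≤ h * hi * Real.log N := by positivity
  calc _ ≤ _ := k3
    _ ≤ 3 * (84 * (h * hi * Real.log N)) + 2 * h * (11 * (hi * Real.log N)) + 20 * h * hi * Real.log N :=
        add_le_add (add_le_add k1 k2) hD
    _ ≤ 320 * h * hi * Real.log N := by
        have e4 : 3 * (84 * (h * hi * Real.log N)) + 2 * h * (11 * (hi * Real.log N)) + 20 * h * hi * Real.log N =
          294 * (h * hi * Real.log N) := by ring
        have e5 : 320 * h * hi * Real.log N = 320 * (h * hi * Real.log N) := by ring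
        rw [e4, e5]
        linarith

lemma T2_continuous {r : ℕ} (ψ : DirichletCharacter ℂ r) {h : ℝ} (hh : 0 < h) (N : ℕ) : Continuous (T2 ψ h N) := by
  have h1 : T2 ψ h N = fun z => ∑ n ∈ Finset.Ioc 0 N, (ψ (n : ZMod r) * ((Λ n / n : ℝ) : ℂ)) *
      ∫ s, triC h (z - Real.log n - s) * triC h s := by
    funext z
    unfold T2
    have e1 : ∀ s, TP ψ h N (z - s) * triC h s = ∑ n ∈ Finset.Ioc 0 N, (ψ (n : ZMod r) * ((Λ n / n : ℝ) : ℂ)) *
        (triC h (z - Real.log n - s) * triC h s) := by
      intro s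
      unfold TP TG
      rw [Finset.sum_mul]
      refine Finset.sum_congr rfl fun n _ => ?_
      rw [show z - s - Real.log n = z - Real.log n - s by ring]
      ring
    simp_rw [e1]
    rw [integral_finsetSum]
    · refine Finset.sum_congr rfl fun n _ => ?_
      rw [integral_const_mul]
    · intro n _
      apply Integrable.const_mul
      apply int_cc
      · exact ((triC_continuous h).comp (by fun_prop)).mul (triC_continuous h)
      · exact (triC_compact hh).mul_left
  have h2 : Continuous fun y : ℝ => ∫ s, triC h (y - s) * triC h s := by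
    have h3 := (triC_compact hh).continuous_convolution_left (ContinuousLinearMap.mul ℂ ℂ) (μ := volume)
      (triC_continuous h) ((triC_continuous h).locallyIntegrable)
    have h4 : (fun y : ℝ => ∫ s, triC h (y - s) * triC h s) =
        MeasureTheory.convolution (triC h) (triC h) (ContinuousLinearMap.mul ℂ ℂ) volume := by
      funext y
      rw [MeasureTheory.convolution_def]
      refine integral_congr_ae (Eventually.of_forall fun s => ?_)
      simp only [ContinuousLinearMap.mul_apply']
      ring
    rw [h4]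
    exact h3
  rw [h1]
  apply continuous_finsetSum
  intro n _
  exact continuous_const.mul (h2.comp (by fun_prop))

/-- **sums over intervals from the double smoothing** -/
theorem sharp_char {r : ℕ} (ψ : DirichletCharacter ℂ r) {h S : ℝ} (hh : 0 < h) (hh2 : 2 * h ≤ 1) {N lo hi : ℕ}
    (hlo : 1 ≤ h * lo) (hlh : lo ≤ hi) (hN : 3 * hi ≤ N) (hS0 : 0 ≤ S)
    (hS : ∀ z, Real.log lo ≤ z → z ≤ Real.log hi → ‖T2 ψ h N z‖ ≤ S) :
    ‖∑ n ∈ Finset.Ico lo hi, ψ (n : ZMod r) * ((Λ n : ℝ) : ℂ)‖ ≤ hi * S + 320 * h * hi * Real.log N := by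
  have hlo1 : 1 ≤ lo := by
    by_contra hc
    have : lo = 0 := by omega
    rw [this] at hlo
    norm_num at hlo
  have hhi1 : 1 ≤ hi := hlo1.trans hlh
  have hhi0 : (0 : ℝ) < hi := by exact_mod_cast hhi1
  have hlo0 : (0 : ℝ) < lo := by exact_mod_cast hlo1
  have hlohi : (lo : ℝ) ≤ hi := by exact_mod_cast hlh
  have hLg : 0 ≤ Real.log N := Real.log_natCast_nonneg _
  set a := Real.log lo with ha
  set b := Real.log hi with hb
  have hab : a ≤ b := Real.log_le_log hlo0 hlohi
  set X : ℂ := ∑ n ∈ Finset.Ico lo hi, ψ (n : ZMod r) * ((Λ n : ℝ) : ℂ) with hX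
  set J : ℝ → ℂ := fun s => ∫ z in a..b, ((Real.exp z : ℝ) : ℂ) * TP ψ h N (z - s) with hJ
  have hTc := TP_continuous ψ h N
  have hint : Integrable (Function.uncurry fun z s : ℝ => ((Real.exp z : ℝ) : ℂ) * TP ψ h N (z - s) * triC h s)
      ((volume.restrict (Set.uIoc a b)).prod volume) := by
    have hfin : IsFiniteMeasure (volume.restrict (Set.uIoc a b)) :=
      ⟨by rw [Measure.restrict_apply_univ]; exact measure_Ioc_lt_top⟩
    have hcst : Integrable (fun _ : ℝ => Real.exp b * (2 * (1 + Real.log N) ^ 2 / h)) (volume.restrict (Set.uIoc a b)) :=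
      integrable_const _
    have h1 := hcst.mul_prod (tri_integrable hh)
    refine h1.mono' ?_ ?_
    · apply Continuous.aestronglyMeasurable
      have := triC_continuous h
      have e : Function.uncurry (fun z s : ℝ => ((Real.exp z : ℝ) : ℂ) * TP ψ h N (z - s) * triC h s) =
        fun p : ℝ × ℝ => ((Real.exp p.1 : ℝ) : ℂ) * TP ψ h N (p.1 - p.2) * triC h p.2 := rfl
      rw [e]
      fun_prop
    · have hae : ∀ᵐ p ∂((volume.restrict (Set.uIoc a b)).prod (volume : Measure ℝ)), p.1 ∈ Set.uIoc a b := by
        have h2 : ∀ᵐ z ∂(volume.restrict (Set.uIoc a b)), z ∈ Set.uIoc a b := ae_restrict_mem measurableSet_uIoc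
        exact Measure.quasiMeasurePreserving_fst.ae h2
      filter_upwards [hae] with p hp
      simp only [Function.uncurry]
      rw [norm_mul, norm_mul, triC_norm hh, Complex.norm_real, Real.norm_of_nonneg (Real.exp_pos _).le]
      apply mul_le_mul_of_nonneg_right _ (tri_nonneg hh _)
      rw [uIoc_of_le hab] at hp
      apply mul_le_mul (Real.exp_le_exp.2 hp.2) (TP_crude ψ hh N _) (norm_nonneg _) (Real.exp_pos _).le
  have e1 : ∫ z in a..b, ((Real.exp z : ℝ) : ℂ) * T2 ψ h N z = ∫ s, J s * triC h s := by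
    have h1 := MeasureTheory.intervalIntegral_integral_swap hint
    have h2 : ∀ z, ((Real.exp z : ℝ) : ℂ) * T2 ψ h N z = ∫ s, ((Real.exp z : ℝ) : ℂ) * TP ψ h N (z - s) * triC h s := by
      intro z
      unfold T2
      rw [← integral_const_mul]
      refine integral_congr_ae (Eventually.of_forall fun s => ?_)
      simp only
      ring
    simp_rw [h2]
    rw [h1]
    refine integral_congr_ae (Eventually.of_forall fun s => ?_)
    simp only [hJ]
    rw [← intervalIntegral.integral_mul_const]
  have hJc : Continuous J := by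
    rw [hJ]
    apply intervalIntegral.continuous_parametric_intervalIntegral_of_continuous'
    rw [Function.uncurry_def]
    fun_prop
  have hJi : Integrable fun s => J s * triC h s := by
    apply int_cc (hJc.mul (triC_continuous h))
    exact (triC_compact hh).mul_left
  have hXi : Integrable fun s => X * triC h s := (triC_integrable hh).const_mul _
  have e2 : ∫ s, X * triC h s = X := by
    rw [integral_const_mul]
    have : ∫ s, triC h s = 1 := by
      unfold triC
      rw [integral_complex_ofReal, integral_tri hh]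
      norm_num
    rw [this, mul_one]
  have h3 : ‖(∫ s, J s * triC h s) - X‖ ≤ 320 * h * hi * Real.log N := by
    have e3 : (∫ s, J s * triC h s) - X = ∫ s, (J s - X) * triC h s := by
      conv_lhs => rw [← e2]
      rw [← integral_sub hJi hXi]
      refine integral_congr_ae (Eventually.of_forall fun s => ?_)
      simp only
      ring
    rw [e3]
    calc ‖∫ s, (J s - X) * triC h s‖ ≤ ∫ s, 320 * h * hi * Real.log N * tri h s := by
          apply norm_integral_le_of_norm_le ((tri_integrable hh).const_mul _)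
          refine Eventually.of_forall fun s => ?_
          rw [norm_mul, triC_norm hh]
          by_cases hs : h ≤ |s|
          · rw [tri_zero_of hh hs, mul_zero, mul_zero]
          · exact mul_le_mul_of_nonneg_right (shift_near ψ hh hh2 hlo hlh hN (not_le.1 hs).le) (tri_nonneg hh s)
      _ = _ := by rw [integral_const_mul, integral_tri hh, mul_one]
  have h4 : ‖∫ z in a..b, ((Real.exp z : ℝ) : ℂ) * T2 ψ h N z‖ ≤ hi * S := by
    calc ‖∫ z in a..b, ((Real.exp z : ℝ) : ℂ) * T2 ψ h N z‖ ≤ ∫ z in a..b, Real.exp z * S := by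
          apply intervalIntegral.norm_integral_le_of_norm_le hab
          · refine Eventually.of_forall fun z hz => ?_
            rw [norm_mul, Complex.norm_real, Real.norm_of_nonneg (Real.exp_pos z).le]
            exact mul_le_mul_of_nonneg_left (hS z hz.1.le hz.2) (Real.exp_pos z).le
          · exact (Real.continuous_exp.mul continuous_const).intervalIntegrable _ _
      _ = (hi - lo) * S := by
          rw [intervalIntegral.integral_mul_const, integral_exp, ha, hb, Real.exp_log hhi0, Real.exp_log hlo0]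
      _ ≤ hi * S := by
          apply mul_le_mul_of_nonneg_right _ hS0
          linarith
  rw [e1] at h4
  have e4 : X = (∫ s, J s * triC h s) - ((∫ s, J s * triC h s) - X) := by ring
  rw [e4]
  exact (norm_sub_le _ _).trans (add_le_add h4 h3)

end Pool.Agent.P8H14.CF
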