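import Pool.Agent.P8H14.CF.E3
import Pool.Agent.P8H14.CF.Defs

set_option autoImplicit false

/-!
# Primes in primitive characters: the sum over all characters
-/

open Complex Filter Topology Set MeasureTheory Metric
open scoped Real FourierTransform
open scoped ArithmeticFunction.vonMangoldt

namespace Pool.Agent.P8H14.CF

open Pool.Agent.W66 Pool.Agent.W66L
open Pool.Agent.P8H13.GK
open Pool.Agent.P8H14.QP (awc gg_char bb_all pr_ne_one sum_pr_le)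

lemma pr_eq (r : ℕ) : pr r = Pool.Agent.P8H14.QP.pr r := by
  unfold pr Pool.Agent.P8H14.QP.pr
  congr

/-- the prime powers -/
lemma th_near {r : ℕ} (ψ : DirichletCharacter ℂ r) {M : ℕ} (hM : 1 ≤ M) :
    ‖∑ n ∈ Finset.Icc 1 M, ((th n : ℝ) : ℂ) * ψ (n : ZMod r)‖ ≤
      ‖∑ n ∈ Finset.Icc 1 M, ψ (n : ZMod r) * ((Λ n : ℝ) : ℂ)‖ + 2 * √(M : ℝ) * Real.log M := by
  have h1 := Chebyshev.psi_sub_theta_le (x := (M : ℝ)) (by exact_mod_cast hM)
  rw [Chebyshev.psi_sub_theta_eq_sum_not_prime, Nat.floor_natCast] at h1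
  have h2 : ‖(∑ n ∈ Finset.Icc 1 M, ψ (n : ZMod r) * ((Λ n : ℝ) : ℂ)) -
      ∑ n ∈ Finset.Icc 1 M, ((th n : ℝ) : ℂ) * ψ (n : ZMod r)‖ ≤ 2 * √(M : ℝ) * Real.log M := by
    rw [← Finset.sum_sub_distrib]
    refine (norm_sum_le _ _).trans (le_trans ?_ h1)
    rw [Finset.sum_filter]
    have e : Finset.Icc 1 M = Finset.Ioc 0 M := by ext n; simp only [Finset.mem_Icc, Finset.mem_Ioc]; omega
    rw [e]
    apply Finset.sum_le_sum
    intro n _
    have h3 := ψ.norm_le_one (n : ZMod r)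
    have hL : 0 ≤ Λ n := ArithmeticFunction.vonMangoldt_nonneg
    unfold th
    by_cases hp : n.Prime
    · rw [if_pos hp, if_neg (not_not.2 hp), ArithmeticFunction.vonMangoldt_apply_prime hp]
      apply le_of_eq
      rw [norm_eq_zero]
      ring
    · rw [if_neg hp, if_pos hp, Complex.ofReal_zero, zero_mul, sub_zero, norm_mul, Complex.norm_real,
        Real.norm_of_nonneg hL]
      calc _ ≤ 1 * Λ n := by gcongr
        _ = _ := one_mul _
  have h3 := norm_sub_le (∑ n ∈ Finset.Icc 1 M, ψ (n : ZMod r) * ((Λ n : ℝ) : ℂ))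
    ((∑ n ∈ Finset.Icc 1 M, ψ (n : ZMod r) * ((Λ n : ℝ) : ℂ)) -
      ∑ n ∈ Finset.Icc 1 M, ((th n : ℝ) : ℂ) * ψ (n : ZMod r))
  rw [sub_sub_cancel] at h3
  linarith

/-- the trivial bound -/
lemma La_triv {r : ℕ} (ψ : DirichletCharacter ℂ r) {a b P : ℕ} (ha : 1 ≤ a) (hb : b ≤ P + 1) :
    ‖∑ n ∈ Finset.Ico a b, ψ (n : ZMod r) * ((Λ n : ℝ) : ℂ)‖ ≤ b * Real.log P := by
  refine (norm_sum_le _ _).trans ?_
  have hLg : 0 ≤ Real.log P := Real.log_natCast_nonneg _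
  have h1 : ∀ n ∈ Finset.Ico a b, ‖ψ (n : ZMod r) * ((Λ n : ℝ) : ℂ)‖ ≤ Real.log P := by
    intro n hn
    rw [Finset.mem_Ico] at hn
    have hn0 : (0 : ℝ) < n := by
      have : 0 < n := by omega
      exact_mod_cast this
    have hnN : (n : ℝ) ≤ P := by
      have : n ≤ P := by omega
      exact_mod_cast this
    have hL : 0 ≤ Λ n := ArithmeticFunction.vonMangoldt_nonneg
    have hL2 : Λ n ≤ Real.log P := ArithmeticFunction.vonMangoldt_le_log.trans (Real.log_le_log hn0 hnN)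
    rw [norm_mul, Complex.norm_real, Real.norm_of_nonneg hL]
    calc _ ≤ 1 * Real.log P := mul_le_mul (ψ.norm_le_one _) hL2 hL zero_le_one
      _ = _ := one_mul _
  refine (Finset.sum_le_card_nsmul _ _ _ h1).trans ?_
  rw [nsmul_eq_mul, Nat.card_Ico]
  have : ((b - a : ℕ) : ℝ) ≤ b := by exact_mod_cast Nat.sub_le _ _
  gcongr

/-- **one character** -/
theorem one_char {r : ℕ} [NeZero r] {ψ : DirichletCharacter ℂ r} (hψ : ψ ≠ 1) {h E Mb : ℝ} (hh : 0 < h)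
    (hh2 : 2 * h ≤ 1) (w P u0 U lo Mx : ℕ) (hw : 1 ≤ w) (hu0 : 1 ≤ u0) (hu : u0 ≤ U) (hlo : 1 ≤ h * lo)
    (hU : Real.log ((Mx + 1 : ℕ) : ℝ) + 3 ≤ U) (hP : Real.exp (U + 1) ≤ P) (hP3 : 3 * (Mx + 1) ≤ P)
    (hZ : Real.log w + u0 + 3 ≤ Real.log lo / 2)
    (hE1 : (w * (r * (48 * U * (Real.exp (-(Real.log lo / 2)) / h ^ 2))) +
      2 * (u0 * (1 + u0) * (w * (r * (48 * 1 * (Real.exp (u0 - Real.log lo / 2) / h ^ 2))))) +
      Real.exp (-u0) * (r * Real.log P) * (r * ((1 + Real.log P) ^ 2 / h))) * (r * ((1 + Real.log P) ^ 2 / h)) ≤ E)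
    (hE2 : 2 * (1 + Real.log P) ^ 2 / h * (w * (r * (48 * 1 * (Real.exp (-(Real.log lo / 2)) / h ^ 2)))) ≤ E)
    (hE3 : w * (r * (48 * U * (Real.exp (1 - Real.log lo) / h ^ 2))) ≤ E)
    (hM0 : 0 < Mb) (hM : ∀ u ∈ Finset.Icc u0 U, ∀ ξ : ℝ, ‖PX ψ u (2 * π * ξ)‖ * ‖𝓕 (boxC h) ξ‖ ≤ Mb)
    {M : ℕ} (hMM : M ≤ Mx) :
    ‖∑ n ∈ Finset.Icc 1 M, ((th n : ℝ) : ℂ) * ψ (n : ZMod r)‖ ≤
      (Mx + 1) * (U * E + (U + 1) * (Mb * ∫ x, ‖bbC h (Finset.Ioc 0 P) (awc ψ w) x‖ ^ 2)) +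
        320 * h * (Mx + 1) * Real.log P + lo * Real.log P + 2 * √(Mx : ℝ) * Real.log P := by
  have hh1 : h ≤ 1 := by linarith
  have hlo1 : 1 ≤ lo := by
    by_contra hc
    have : lo = 0 := by omega
    rw [this] at hlo
    norm_num at hlo
  have hLg : 0 ≤ Real.log P := Real.log_natCast_nonneg _
  set I := ∫ x, ‖bbC h (Finset.Ioc 0 P) (awc ψ w) x‖ ^ 2 with hI
  have hI0 : 0 ≤ I := integral_nonneg fun x => by positivity
  have hE0 : 0 ≤ E := le_trans (by positivity) hE2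
  rcases Nat.eq_zero_or_pos M with h0 | h0
  · rw [h0]
    simp only [Finset.Icc_eq_empty_of_lt, Nat.lt_one_iff, Finset.sum_empty, norm_zero]
    positivity
  have hMx : (M : ℝ) ≤ Mx := by exact_mod_cast hMM
  have hM1 : (1 : ℝ) ≤ M := by exact_mod_cast h0
  have hMP : M ≤ P := by omega
  have h1 := th_near ψ h0
  have h2 : 2 * √(M : ℝ) * Real.log M ≤ 2 * √(Mx : ℝ) * Real.log P := by
    have h3 : √(M : ℝ) ≤ √(Mx : ℝ) := Real.sqrt_le_sqrt hMx
    have h4 : Real.log M ≤ Real.log P := Real.log_le_log (by linarith) (by exact_mod_cast hMP)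
    have h5 : 0 ≤ Real.log M := Real.log_nonneg hM1
    gcongr
  have h3 : ‖∑ n ∈ Finset.Icc 1 M, ψ (n : ZMod r) * ((Λ n : ℝ) : ℂ)‖ ≤
      (Mx + 1) * (U * E + (U + 1) * (Mb * I)) + 320 * h * (Mx + 1) * Real.log P + lo * Real.log P := by
    have e : Finset.Icc 1 M = Finset.Ico 1 (M + 1) := by
      ext n; simp only [Finset.mem_Icc, Finset.mem_Ico]; omega
    rw [e]
    rcases le_or_gt (M + 1) lo with h5 | h5
    · have h6 := La_triv ψ (a := 1) (b := M + 1) (P := P) le_rfl (by omega)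
      have h7 : ((M + 1 : ℕ) : ℝ) ≤ lo := by exact_mod_cast h5
      have h8 : 0 ≤ (Mx + 1) * (U * E + (U + 1) * (Mb * I)) + 320 * h * (Mx + 1) * Real.log P := by positivity
      have h9 : ((M + 1 : ℕ) : ℝ) * Real.log P ≤ lo * Real.log P := by gcongr
      linarith
    · rw [← Finset.sum_Ico_consecutive _ hlo1 h5.le]
      refine (norm_add_le _ _).trans ?_
      rw [add_comm]
      apply add_le_add
      · have h6 := sharp_char ψ hh hh2 (N := P) (lo := lo) (hi := M + 1) (S := U * E + (U + 1) * (Mb * I)) hlo h5.le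
          (by omega) (by positivity) (by
            intro z hz1 hz2
            have hz3 : z + 3 ≤ U := by
              have : Real.log ((M + 1 : ℕ) : ℝ) ≤ Real.log ((Mx + 1 : ℕ) : ℝ) :=
                Real.log_le_log (by positivity) (by exact_mod_cast Nat.succ_le_succ hMM)
              linarith
            have hlw : 0 ≤ Real.log w := Real.log_nonneg (by exact_mod_cast hw)
            have hu0' : (1 : ℝ) ≤ u0 := by exact_mod_cast hu0
            have hz0 : 0 ≤ z + 3 := by linarith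
            have t1 : Real.exp (-(z / 2)) ≤ Real.exp (-(Real.log lo / 2)) := Real.exp_le_exp.2 (by linarith)
            have t2 : Real.exp (u0 - z / 2) ≤ Real.exp (u0 - Real.log lo / 2) := Real.exp_le_exp.2 (by linarith)
            have t3 : Real.exp (1 - z) ≤ Real.exp (1 - Real.log lo) := Real.exp_le_exp.2 (by linarith)
            have h7 := T2_le hψ hh hh1 w P u0 U hw hu0 hu hz3 hP (by linarith) (E := E) (M := Mb)
              (by refine le_trans ?_ hE1; gcongr) (by refine le_trans ?_ hE2; gcongr)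
              (by refine le_trans ?_ hE3; gcongr) hM0 hM
            refine h7.trans ?_
            gcongr)
        refine h6.trans ?_
        have h7 : ((M + 1 : ℕ) : ℝ) ≤ Mx + 1 := by
          push_cast
          linarith
        gcongr
      · exact La_triv ψ (a := 1) (b := lo) (P := P) le_rfl (by omega)
  linarith

/-- **all characters** -/
theorem all_char {F : ℕ} {h E Mb : ℝ} (hh : 0 < h)
    (hh2 : 2 * h ≤ 1) (w P u0 U lo Mx : ℕ) (hw : 1 ≤ w) (hu0 : 1 ≤ u0) (hu : u0 ≤ U) (hlo : 1 ≤ h * lo)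
    (hU : Real.log ((Mx + 1 : ℕ) : ℝ) + 3 ≤ U) (hP : Real.exp (U + 1) ≤ P) (hP3 : 3 * (Mx + 1) ≤ P)
    (hZ : Real.log w + u0 + 3 ≤ Real.log lo / 2) (hLS : (1 + (F : ℝ) ^ 2) / h ≤ w)
    (hE1 : (w * (F * (48 * U * (Real.exp (-(Real.log lo / 2)) / h ^ 2))) +
      2 * (u0 * (1 + u0) * (w * (F * (48 * 1 * (Real.exp (u0 - Real.log lo / 2) / h ^ 2))))) +
      Real.exp (-u0) * (F * Real.log P) * (F * ((1 + Real.log P) ^ 2 / h))) * (F * ((1 + Real.log P) ^ 2 / h)) ≤ E)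
    (hE2 : 2 * (1 + Real.log P) ^ 2 / h * (w * (F * (48 * 1 * (Real.exp (-(Real.log lo / 2)) / h ^ 2)))) ≤ E)
    (hE3 : w * (F * (48 * U * (Real.exp (1 - Real.log lo) / h ^ 2))) ≤ E)
    (hM0 : 0 < Mb) (hM : ∀ r ∈ Finset.Icc 2 F, ∀ ψ ∈ pr r, ∀ u ∈ Finset.Icc u0 U, ∀ ξ : ℝ,
      ‖PX ψ u (2 * π * ξ)‖ * ‖𝓕 (boxC h) ξ‖ ≤ Mb)
    {M : ℕ} (hMM : M ≤ Mx) :
    ∑ r ∈ Finset.Icc 2 F, ∑ ψ ∈ pr r, ‖∑ n ∈ Finset.Icc 1 M, ((th n : ℝ) : ℂ) * ψ (n : ZMod r)‖ ≤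
      (F : ℝ) ^ 2 * ((Mx + 1) * (U * E) + 320 * h * (Mx + 1) * Real.log P + lo * Real.log P +
        2 * √(Mx : ℝ) * Real.log P) + (Mx + 1) * ((U + 1) * (Mb * (96 * (1 + Real.log P) ^ 4))) := by
  have hh1 : h ≤ 1 := by linarith
  have hLg : 0 ≤ Real.log P := Real.log_natCast_nonneg _
  have hE0 : 0 ≤ E := le_trans (by positivity) hE2
  have hP1 : 1 ≤ P := by omega
  set a : ℝ := (Mx + 1) * (U * E) + 320 * h * (Mx + 1) * Real.log P + lo * Real.log P +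
        2 * √(Mx : ℝ) * Real.log P with ha
  have ha0 : 0 ≤ a := by positivity
  set b : ℝ := (Mx + 1) * ((U + 1) * Mb) with hb
  have hb0 : 0 ≤ b := by positivity
  -- each character
  have h1 : ∀ r ∈ Finset.Icc 2 F, ∀ ψ ∈ pr r, ‖∑ n ∈ Finset.Icc 1 M, ((th n : ℝ) : ℂ) * ψ (n : ZMod r)‖ ≤
      a + b * ∫ x, ‖bbC h (Finset.Ioc 0 P) (awc ψ w) x‖ ^ 2 := by
    intro r hr ψ hψ
    rw [Finset.mem_Icc] at hr
    haveI : NeZero r := ⟨by omega⟩
    have hψ1 : ψ ≠ 1 := pr_ne_one (by omega) (by rw [← pr_eq]; exact hψ) (by omega)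
    have hrF : (r : ℝ) ≤ F := by exact_mod_cast hr.2
    have h2 := one_char hψ1 hh hh2 w P u0 U lo Mx hw hu0 hu hlo hU hP hP3 hZ (E := E) (Mb := Mb)
      (by refine le_trans ?_ hE1; gcongr) (by refine le_trans ?_ hE2; gcongr)
      (by refine le_trans ?_ hE3; gcongr) hM0 (hM r (Finset.mem_Icc.2 hr) ψ hψ) hMM
    refine h2.trans (le_of_eq ?_)
    rw [ha, hb]
    ring
  have hbb := bb_all (F := F) (w := w) (N := P) hh hh1 hP1 hLS
  have hcard := sum_pr_le F (fun r _ => a) (a := a) (b := 0) ha0 le_rfl (by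
    intro r _ ψ _
    split_ifs <;> linarith)
  have hsub : Finset.Icc 2 F ⊆ Finset.Icc 1 F := Finset.Icc_subset_Icc_left (by norm_num)
  have hwt : ∀ r ∈ Finset.Icc 1 F, (1 : ℝ) ≤ (r : ℝ) / r.totient := by
    intro r hr
    rw [Finset.mem_Icc] at hr
    have h2 : 0 < r.totient := Nat.totient_pos.2 (by omega)
    rw [le_div_iff₀ (by exact_mod_cast h2), one_mul]
    exact_mod_cast Nat.totient_le r
  calc ∑ r ∈ Finset.Icc 2 F, ∑ ψ ∈ pr r, ‖∑ n ∈ Finset.Icc 1 M, ((th n : ℝ) : ℂ) * ψ (n : ZMod r)‖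
      ≤ ∑ r ∈ Finset.Icc 2 F, ∑ ψ ∈ pr r, (a + b * ∫ x, ‖bbC h (Finset.Ioc 0 P) (awc ψ w) x‖ ^ 2) :=
        Finset.sum_le_sum fun r hr => Finset.sum_le_sum fun ψ hψ => h1 r hr ψ hψ
    _ ≤ ∑ r ∈ Finset.Icc 1 F, ∑ ψ ∈ pr r, (a + b * ∫ x, ‖bbC h (Finset.Ioc 0 P) (awc ψ w) x‖ ^ 2) := by
        apply Finset.sum_le_sum_of_subset_of_nonneg hsub
        intro r _ _
        apply Finset.sum_nonneg
        intro ψ _
        have : 0 ≤ ∫ x, ‖bbC h (Finset.Ioc 0 P) (awc ψ w) x‖ ^ 2 := integral_nonneg fun x => by positivity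
        positivity
    _ ≤ ∑ r ∈ Finset.Icc 1 F, ((r : ℝ) / r.totient) *
          ∑ ψ ∈ Pool.Agent.P8H14.QP.pr r, (a + b * ∫ x, ‖bbC h (Finset.Ioc 0 P) (awc ψ w) x‖ ^ 2) := by
        apply Finset.sum_le_sum
        intro r hr
        rw [pr_eq]
        apply le_mul_of_one_le_left _ (hwt r hr)
        apply Finset.sum_nonneg
        intro ψ _
        have : 0 ≤ ∫ x, ‖bbC h (Finset.Ioc 0 P) (awc ψ w) x‖ ^ 2 := integral_nonneg fun x => by positivity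
        positivity
    _ = ∑ r ∈ Finset.Icc 1 F, ((r : ℝ) / r.totient) * ∑ ψ ∈ Pool.Agent.P8H14.QP.pr r, a +
          b * ∑ r ∈ Finset.Icc 1 F, ((r : ℝ) / r.totient) *
            ∑ ψ ∈ Pool.Agent.P8H14.QP.pr r, ∫ x, ‖bbC h (Finset.Ioc 0 P) (awc ψ w) x‖ ^ 2 := by
        rw [Finset.mul_sum, ← Finset.sum_add_distrib]
        apply Finset.sum_congr rfl
        intro r _
        rw [Finset.sum_add_distrib, ← Finset.mul_sum]
        ring
    _ ≤ ((F : ℝ) ^ 2 * a + 0) + b * (96 * (1 + Real.log P) ^ 4) :=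
        add_le_add hcard (mul_le_mul_of_nonneg_left hbb hb0)
    _ = _ := by rw [hb]; ring

end Pool.Agent.P8H14.CF
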