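import Pool.Agent.P8H14.CF.E4
import Pool.Agent.P8H13.GK.Mb

set_option autoImplicit false

/-!
# Primes in primitive characters at a good scale
-/

open Complex Filter Topology Set MeasureTheory Metric
open scoped Real FourierTransform
open scoped ArithmeticFunction.vonMangoldt

namespace Pool.Agent.P8H14.CF

open Pool.Agent.W66 Pool.Agent.W66L
open Pool.Agent.P8H13.GK

/-- the numbers for one scale -/
theorem L1_fin {F N w P u0 U lo : ℕ} {l X K : ℝ} {D A : ℕ} (hDA : D = A + 9) (hN : 1 ≤ N) (hX : X = Real.log N)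
    (hl1 : 8 ≤ l) (hlX : 1000 * l ≤ X) (hXl : (1 + 2 * X) ^ 2 ≤ Real.exp l) (hα48 : 48 ≤ Real.exp l)
    (hF : (F : ℝ) ≤ Real.exp (l / 10)) (hw : (1 + (F : ℝ) ^ 2) / Real.exp (-(6 * l)) ≤ w)
    (hw8 : (w : ℝ) ≤ Real.exp (8 * l)) (hw1 : 1 ≤ w) (hU1 : X + 6 ≤ U) (hU2 : (U : ℝ) ≤ X + 7)
    (hP : Real.exp (U + 1) ≤ P) (hP2 : Real.log P ≤ X + 9) (hu28 : 28 * l ≤ u0) (huX : (u0 : ℝ) ≤ X / 10)
    (hlo : Real.exp (X / 2) ≤ lo) (hlo2 : (lo : ℝ) ≤ 2 * Real.exp (X / 2)) (hK : 0 < K)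
    (hM : ∀ r ∈ Finset.Icc 2 F, ∀ ψ ∈ pr r, ∀ u ∈ Finset.Icc u0 U, ∀ ξ : ℝ,
      ‖PX ψ u (2 * π * ξ)‖ * ‖𝓕 (boxC (Real.exp (-(6 * l)))) ξ‖ ≤ K * ((U : ℝ) ^ 2 / (U : ℝ) ^ D))
    (hf1 : 3222 * X ^ A ≤ Real.exp (4 * l)) (hf2 : 30720 * K ≤ X ^ 2) {M : ℕ} (hMM : M ≤ 4 * N) :
    ∑ r ∈ Finset.Icc 2 F, ∑ ψ ∈ pr r, ‖∑ n ∈ Finset.Icc 1 M, ((th n : ℝ) : ℂ) * ψ (n : ZMod r)‖ ≤ N / X ^ A := by
  have hN0 : (0 : ℝ) < N := by exact_mod_cast hN
  have hN1 : (1 : ℝ) ≤ N := by exact_mod_cast hN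
  have hNX : (N : ℝ) = Real.exp X := by rw [hX, Real.exp_log hN0]
  have hX0 : 8000 ≤ X := by linarith
  have hXp : 0 < X := by linarith
  set h : ℝ := Real.exp (-(6 * l)) with hh
  have hh0 : 0 < h := Real.exp_pos _
  set α : ℝ := Real.exp l with hα
  have hα0 : 0 < α := Real.exp_pos _
  have hα1 : 1 ≤ α := by linarith
  have hαk : ∀ k : ℕ, α ^ k = Real.exp (k * l) := fun k => by rw [hα, ← Real.exp_nat_mul]
  have hhinv : 1 / h = α ^ 6 := by
    rw [hαk, hh, one_div, ← Real.exp_neg]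
    congr 1
    push_cast
    ring
  have hh2inv : 1 / h ^ 2 = α ^ 12 := by
    have : (1 : ℝ) / h ^ 2 = (1 / h) ^ 2 := by rw [div_pow, one_pow]
    rw [this, hhinv]
    ring
  have hFα : (F : ℝ) ≤ α := hF.trans (Real.exp_le_exp.2 (by linarith))
  have hF2 : (F : ℝ) ^ 2 ≤ α := by
    calc (F : ℝ) ^ 2 ≤ Real.exp (l / 10) ^ 2 := by gcongr
      _ = Real.exp (l / 5) := by rw [← Real.exp_nat_mul]; congr 1; push_cast; ring
      _ ≤ α := Real.exp_le_exp.2 (by linarith)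
  have hwα : (w : ℝ) ≤ α ^ 8 := by rw [hαk]; exact_mod_cast hw8
  have hLg : 0 ≤ Real.log P := Real.log_natCast_nonneg _
  have hP2X : 1 + Real.log P ≤ 1 + 2 * X := by linarith
  have h1X : 1 + 2 * X ≤ (1 + 2 * X) ^ 2 := le_self_pow₀ (by linarith) (by norm_num)
  have hLα : Real.log P ≤ α := by linarith
  have hL2 : (1 + Real.log P) ^ 2 ≤ α := by
    refine le_trans ?_ hXl
    gcongr
  have hUα : (U : ℝ) ≤ α := by linarith
  have huα : (u0 : ℝ) * (1 + u0) ≤ α := by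
    have e1 : (u0 : ℝ) ≤ 1 + 2 * X := by linarith
    have e2 : 1 + (u0 : ℝ) ≤ 1 + 2 * X := by linarith
    calc (u0 : ℝ) * (1 + u0) ≤ (1 + 2 * X) * (1 + 2 * X) := by gcongr
      _ = (1 + 2 * X) ^ 2 := by ring
      _ ≤ α := hXl
  have hlo0 : (0 : ℝ) < lo := lt_of_lt_of_le (Real.exp_pos _) hlo
  have hllo : X / 2 ≤ Real.log lo := by rw [Real.le_log_iff_exp_le hlo0]; exact hlo
  have q1 : Real.exp (-(Real.log lo / 2)) / h ^ 2 ≤ Real.exp (-(X / 4)) * α ^ 12 := by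
    rw [div_eq_mul_one_div, hh2inv]
    have : Real.exp (-(Real.log lo / 2)) ≤ Real.exp (-(X / 4)) := Real.exp_le_exp.2 (by linarith)
    gcongr
  have q2 : Real.exp (u0 - Real.log lo / 2) / h ^ 2 ≤ Real.exp (u0 - X / 4) * α ^ 12 := by
    rw [div_eq_mul_one_div, hh2inv]
    have : Real.exp (u0 - Real.log lo / 2) ≤ Real.exp (u0 - X / 4) := Real.exp_le_exp.2 (by linarith)
    gcongr
  have q3 : (1 + Real.log P) ^ 2 / h ≤ α ^ 7 := by
    rw [div_eq_mul_one_div, hhinv]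
    calc (1 + Real.log P) ^ 2 * α ^ 6 ≤ α * α ^ 6 := by gcongr
      _ = _ := by ring
  have q4 : Real.exp (1 - Real.log lo) / h ^ 2 ≤ Real.exp (1 - X / 2) * α ^ 12 := by
    rw [div_eq_mul_one_div, hh2inv]
    have : Real.exp (1 - Real.log lo) ≤ Real.exp (1 - X / 2) := Real.exp_le_exp.2 (by linarith)
    gcongr
  -- small exponentials
  have s1 : α ^ 31 * Real.exp (-(X / 4)) ≤ Real.exp (-(9 * l)) := by
    rw [hαk, ← Real.exp_add]
    apply Real.exp_le_exp.2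
    push_cast
    linarith
  have s2 : α ^ 31 * Real.exp (u0 - X / 4) ≤ Real.exp (-(9 * l)) := by
    rw [hαk, ← Real.exp_add]
    apply Real.exp_le_exp.2
    push_cast
    linarith
  have s3 : α ^ 18 * Real.exp (-u0) ≤ Real.exp (-(9 * l)) := by
    rw [hαk, ← Real.exp_add]
    apply Real.exp_le_exp.2
    push_cast
    linarith
  have s4 : α ^ 23 * Real.exp (1 - X / 2) ≤ Real.exp (-(9 * l)) := by
    rw [hαk, ← Real.exp_add]
    apply Real.exp_le_exp.2
    push_cast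
    linarith
  have s5 : 4 * Real.exp (-(9 * l)) ≤ Real.exp (-(8 * l)) := by
    have e : Real.exp (-(8 * l)) = α * Real.exp (-(9 * l)) := by
      rw [hα, ← Real.exp_add]
      congr 1
      ring
    rw [e]
    gcongr
    linarith
  have hE9 : 0 < Real.exp (-(9 * l)) := Real.exp_pos _
  set Ee : ℝ := Real.exp (-(8 * l)) with hEe
  have hE1 : (w * (F * (48 * U * (Real.exp (-(Real.log lo / 2)) / h ^ 2))) +
      2 * (u0 * (1 + u0) * (w * (F * (48 * 1 * (Real.exp (u0 - Real.log lo / 2) / h ^ 2))))) +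
      Real.exp (-u0) * (F * Real.log P) * (F * ((1 + Real.log P) ^ 2 / h))) * (F * ((1 + Real.log P) ^ 2 / h)) ≤ Ee := by
    calc _ ≤ (α ^ 8 * (α * (α * α * (Real.exp (-(X / 4)) * α ^ 12))) +
          2 * (α * (α ^ 8 * (α * (α * 1 * (Real.exp (u0 - X / 4) * α ^ 12))))) +
          Real.exp (-u0) * (α * α) * (α * α ^ 7)) * (α * α ^ 7) := by gcongr
      _ = α ^ 31 * Real.exp (-(X / 4)) + 2 * (α ^ 31 * Real.exp (u0 - X / 4)) + α ^ 18 * Real.exp (-u0) := by ring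
      _ ≤ Real.exp (-(9 * l)) + 2 * Real.exp (-(9 * l)) + Real.exp (-(9 * l)) := by gcongr
      _ = 4 * Real.exp (-(9 * l)) := by ring
      _ ≤ Ee := s5
  have hE2 : 2 * (1 + Real.log P) ^ 2 / h * (w * (F * (48 * 1 * (Real.exp (-(Real.log lo / 2)) / h ^ 2)))) ≤ Ee := by
    have e : 2 * (1 + Real.log P) ^ 2 / h = 2 * ((1 + Real.log P) ^ 2 / h) := by ring
    rw [e]
    calc _ ≤ 2 * α ^ 7 * (α ^ 8 * (α * (α * 1 * (Real.exp (-(X / 4)) * α ^ 12)))) := by gcongr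
      _ = 2 * (α ^ 29 * Real.exp (-(X / 4))) := by ring
      _ ≤ 2 * (α ^ 31 * Real.exp (-(X / 4))) := by gcongr <;> first | exact hα1 | norm_num
      _ ≤ 2 * Real.exp (-(9 * l)) := by gcongr
      _ ≤ Ee := by linarith
  have hE3 : w * (F * (48 * U * (Real.exp (1 - Real.log lo) / h ^ 2))) ≤ Ee := by
    calc _ ≤ α ^ 8 * (α * (α * α * (Real.exp (1 - X / 2) * α ^ 12))) := by gcongr
      _ = α ^ 23 * Real.exp (1 - X / 2) := by ring
      _ ≤ Real.exp (-(9 * l)) := s4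
      _ ≤ Ee := by linarith
  have hE0 : 0 < Ee := Real.exp_pos _
  have hUp : (0 : ℝ) < U := by linarith
  have hlw : Real.log w ≤ 8 * l := by
    rw [Real.log_le_iff_le_exp (by exact_mod_cast hw1)]
    exact hw8
  have hloN : 1 ≤ h * lo := by
    calc (1 : ℝ) = Real.exp 0 := Real.exp_zero.symm
      _ ≤ Real.exp (-(6 * l) + X / 2) := Real.exp_le_exp.2 (by linarith)
      _ = h * Real.exp (X / 2) := by rw [Real.exp_add]
      _ ≤ h * lo := by gcongr
  have hh2 : 2 * h ≤ 1 := by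
    have e : h * α ^ 6 = 1 := by rw [← hhinv]; field_simp
    have e2 : 2 ≤ α ^ 6 := by
      have : α ≤ α ^ 6 := le_self_pow₀ hα1 (by norm_num)
      linarith
    calc 2 * h ≤ α ^ 6 * h := by gcongr
      _ = 1 := by rw [mul_comm]; exact e
  have hu01 : 1 ≤ u0 := by
    have : (1 : ℝ) ≤ u0 := by linarith
    exact_mod_cast this
  have huU : u0 ≤ U := by
    have : (u0 : ℝ) ≤ U := by linarith
    exact_mod_cast this
  have hMx : Real.log ((4 * N + 1 : ℕ) : ℝ) + 3 ≤ U := by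
    have e1 : ((4 * N + 1 : ℕ) : ℝ) ≤ Real.exp 3 * N := by
      push_cast
      have := Real.add_one_le_exp (3 : ℝ)
      have e2 : Real.exp 1 ^ 3 = Real.exp 3 := by rw [← Real.exp_nat_mul]; norm_num
      have e3 : (8 : ℝ) ≤ Real.exp 3 := by
        rw [← e2]
        have e4 : (2 : ℝ) ≤ Real.exp 1 := by linarith [Real.exp_one_gt_d9]
        calc (8 : ℝ) = 2 ^ 3 := by norm_num
          _ ≤ _ := by gcongr
      have e5 : 8 * (N : ℝ) ≤ Real.exp 3 * N := by gcongr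
      linarith
    have e2 := Real.log_le_log (by positivity) e1
    rw [Real.log_mul (Real.exp_pos _).ne' hN0.ne', Real.log_exp, ← hX] at e2
    linarith
  have hP3 : 3 * (4 * N + 1) ≤ P := by
    have e1 : Real.exp (X + 7) ≤ P := le_trans (Real.exp_le_exp.2 (by linarith)) hP
    have e2 : (3 * (4 * N + 1) : ℝ) ≤ P := by
      refine le_trans ?_ e1
      rw [Real.exp_add, ← hNX]
      have e3 : (2 : ℝ) ≤ Real.exp 1 := by linarith [Real.exp_one_gt_d9]
      have e4 : Real.exp 1 ^ 7 = Real.exp 7 := by rw [← Real.exp_nat_mul]; norm_num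
      have e5 : (128 : ℝ) ≤ Real.exp 7 := by
        rw [← e4]
        calc (128 : ℝ) = 2 ^ 7 := by norm_num
          _ ≤ _ := by gcongr
      have e6 : (N : ℝ) * 128 ≤ N * Real.exp 7 := by gcongr
      linarith
    exact_mod_cast e2
  have hMb0 : 0 < K * ((U : ℝ) ^ 2 / (U : ℝ) ^ D) := by positivity
  have key := all_char (F := F) (h := h) (E := Ee) (Mb := K * ((U : ℝ) ^ 2 / (U : ℝ) ^ D)) hh0 hh2 w P u0 U lo (4 * N)
    hw1 hu01 huU hloN hMx hP hP3 (by linarith) hw hE1 hE2 hE3 hMb0 hM hMM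
  refine key.trans ?_
  -- the sum
  have hMx5 : ((4 * N : ℕ) : ℝ) + 1 ≤ 5 * N := by push_cast; linarith
  have hXA : 0 < X ^ A := by positivity
  have hsq : √((4 * N : ℕ) : ℝ) = 2 * Real.exp (X / 2) := by
    rw [Real.sqrt_eq_iff_mul_self_eq (by positivity) (by positivity)]
    push_cast
    rw [hNX]
    have : Real.exp X = Real.exp (X / 2) * Real.exp (X / 2) := by rw [← Real.exp_add]; congr 1; ring
    rw [this]
    ring
  have t4 : Real.exp (2 * l) * Real.exp (X / 2) ≤ N * Real.exp (-(4 * l)) := by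
    rw [hNX, ← Real.exp_add, ← Real.exp_add]
    apply Real.exp_le_exp.2
    linarith
  have hα2 : α ^ 2 = Real.exp (2 * l) := by rw [hαk]; norm_num
  have hfirst : (F : ℝ) ^ 2 * ((((4 * N : ℕ) : ℝ) + 1) * (U * Ee) + 320 * h * (((4 * N : ℕ) : ℝ) + 1) * Real.log P +
      lo * Real.log P + 2 * √((4 * N : ℕ) : ℝ) * Real.log P) ≤ 1611 * (N * Real.exp (-(4 * l))) := by
    rw [hsq]
    calc _ ≤ α * ((5 * N) * (α * Ee) + 320 * h * (5 * N) * α + (2 * Real.exp (X / 2)) * α +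
          2 * (2 * Real.exp (X / 2)) * α) := by gcongr
      _ = 5 * (N * (α ^ 2 * Ee)) + 1600 * (N * (α ^ 2 * h)) + 6 * (α ^ 2 * Real.exp (X / 2)) := by ring
      _ ≤ 5 * (N * Real.exp (-(4 * l))) + 1600 * (N * Real.exp (-(4 * l))) + 6 * (N * Real.exp (-(4 * l))) := by
          have e1 : α ^ 2 * Ee ≤ Real.exp (-(4 * l)) := by
            rw [hα2, hEe, ← Real.exp_add]
            apply Real.exp_le_exp.2
            linarith
          have e2 : α ^ 2 * h ≤ Real.exp (-(4 * l)) := by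
            rw [hα2, hh, ← Real.exp_add]
            apply Real.exp_le_exp.2
            linarith
          have e3 : α ^ 2 * Real.exp (X / 2) ≤ N * Real.exp (-(4 * l)) := by rw [hα2]; exact t4
          gcongr
      _ = _ := by ring
  have hfirst2 : 1611 * (N * Real.exp (-(4 * l))) ≤ N / X ^ A / 2 := by
    rw [div_div, le_div_iff₀ (by positivity)]
    have e1 : Real.exp (-(4 * l)) * Real.exp (4 * l) = 1 := by rw [← Real.exp_add]; simp
    calc 1611 * (N * Real.exp (-(4 * l))) * (X ^ A * 2) = N * Real.exp (-(4 * l)) * (3222 * X ^ A) := by ring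
      _ ≤ N * Real.exp (-(4 * l)) * Real.exp (4 * l) := by gcongr
      _ = N := by rw [mul_assoc, e1, mul_one]
  have hsecond : (((4 * N : ℕ) : ℝ) + 1) * ((U + 1) * (K * ((U : ℝ) ^ 2 / (U : ℝ) ^ D) * (96 * (1 + Real.log P) ^ 4))) ≤
      N / X ^ A / 2 := by
    have e1 : (U : ℝ) + 1 ≤ 2 * U := by linarith
    have e2 : 1 + Real.log P ≤ 2 * U := by linarith
    have e3 : (U : ℝ) ^ D = U ^ A * U ^ 9 := by rw [hDA, pow_add]
    calc _ ≤ (5 * N) * ((2 * U) * (K * ((U : ℝ) ^ 2 / (U : ℝ) ^ D) * (96 * (2 * U) ^ 4))) := by gcongr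
      _ = 15360 * K * N / (U ^ A * U ^ 2) := by
          rw [e3]
          field_simp
          ring
      _ ≤ 15360 * K * N / (X ^ A * X ^ 2) := by
          have : X ≤ U := by linarith
          gcongr
      _ ≤ N / X ^ A / 2 := by
          rw [div_div, div_le_div_iff₀ (by positivity) (by positivity)]
          calc 15360 * K * N * (X ^ A * 2) = (30720 * K) * (N * X ^ A) := by ring
            _ ≤ X ^ 2 * (N * X ^ A) := by gcongr
            _ = _ := by ring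
  linarith [hfirst.trans hfirst2]

end Pool.Agent.P8H14.CF
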