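import Pool.Agent.P8H14.CF.E5

set_option autoImplicit false

/-!
# Primes in primitive characters at a good scale (choice of the parameters)
-/

open Complex Filter Topology Set MeasureTheory Metric
open scoped Real FourierTransform
open scoped ArithmeticFunction.vonMangoldt

namespace Pool.Agent.P8H14.CF

open Pool.Agent.W66 Pool.Agent.W66L
open Pool.Agent.P8H13.GK

lemma ev_pow_exp (m : ℕ) (b a : ℝ) (hb : 0 < b) (ha : 0 < a) :
    ∀ᶠ l : ℝ in atTop, a * l ^ m ≤ Real.exp (b * l) := by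
  have h1 := (Real.tendsto_pow_mul_exp_neg_atTop_nhds_zero m).comp (tendsto_id.const_mul_atTop hb)
  have h2 : 0 < b ^ m / a := by positivity
  filter_upwards [h1.eventually (ge_mem_nhds h2), eventually_gt_atTop 0] with l hl hl0
  simp only [Function.comp, id] at hl
  rw [Real.exp_neg, ← div_eq_mul_inv, div_le_div_iff₀ (Real.exp_pos _) ha, mul_pow] at hl
  have hbm : 0 < b ^ m := by positivity
  have h3 : b ^ m * (a * l ^ m) ≤ b ^ m * Real.exp (b * l) := by linarith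
  exact le_of_mul_le_mul_left h3 hbm

/-- **primes in primitive characters at a good scale** -/
theorem L1 {c C : ℝ} (hc : 0 < c) (hc8 : c ≤ 1 / 8) (hC : 0 < C) (A : ℕ) : ∃ c1 : ℝ, 0 < c1 ∧ c1 ≤ 1 ∧ ∃ L0 : ℝ,
    ∀ (l : ℝ) (N : ℕ), L0 ≤ l → Reg c C (12 * l) → l ≤ Real.log N → Real.log N ≤ 18 * l ^ 2 →
      2 * (l * Real.log (Real.log N)) ≤ c1 * Real.log N → ∀ F : ℕ, (F : ℝ) ≤ Real.exp (l / 10) → ∀ M : ℕ, M ≤ 4 * N →
      ∑ r ∈ Finset.Icc 2 F, ∑ ψ ∈ pr r, ‖∑ n ∈ Finset.Icc 1 M, ((th n : ℝ) : ℂ) * ψ (n : ZMod r)‖ ≤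
        N / Real.log N ^ A := by
  obtain ⟨C0, K, hC0, hK, hMb⟩ := M_boundR (A + 9) hc hc8 hC
  set c1 : ℝ := min 1 (1 / (200 * C0)) with hc1
  have hc10 : 0 < c1 := lt_min one_pos (by positivity)
  have hc11 : c1 ≤ 1 := min_le_left _ _
  have hc12 : C0 * c1 ≤ 1 / 200 := by
    calc C0 * c1 ≤ C0 * (1 / (200 * C0)) := by gcongr; exact min_le_right _ _
      _ = 1 / 200 := by field_simp
  refine ⟨c1, hc10, hc11, ?_⟩
  -- conditions on `X`
  have x1 : ∀ᶠ X : ℝ in atTop, 500 ≤ Real.log X := Real.tendsto_log_atTop.eventually_ge_atTop _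
  have x2 : ∀ᶠ X : ℝ in atTop, 28 / (12 * C0) ≤ Real.log X := Real.tendsto_log_atTop.eventually_ge_atTop _
  have x3 : ∀ᶠ Z : ℝ in atTop, 11 * (Z ^ (A + 9) * Real.exp (-√Z)) ≤ 1 := by
    have h1 := ((Real.tendsto_pow_mul_exp_neg_atTop_nhds_zero (2 * (A + 9))).const_mul 11).comp Real.tendsto_sqrt_atTop
    rw [mul_zero] at h1
    filter_upwards [h1.eventually (ge_mem_nhds one_pos), eventually_ge_atTop 0] with Z hZ hZ0
    simp only [Function.comp] at hZ
    rwa [pow_mul, Real.sq_sqrt hZ0] at hZ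
  have x4 : ∀ᶠ X : ℝ in atTop, 30720 * K ≤ X ^ 2 := (tendsto_pow_atTop two_ne_zero).eventually_ge_atTop _
  obtain ⟨X0, hX0⟩ := eventually_atTop.1 (((x1.and x2).and (x3.and x4)).and (eventually_ge_atTop (25 : ℝ)))
  -- conditions on `l`
  have l1 : ∀ᶠ l : ℝ in atTop, 37 ^ 2 * l ^ 4 ≤ Real.exp (1 * l) := ev_pow_exp 4 1 _ one_pos (by norm_num)
  have l2 : ∀ᶠ l : ℝ in atTop, (3222 * 18 ^ A) * l ^ (2 * A) ≤ Real.exp (4 * l) :=
    ev_pow_exp (2 * A) 4 _ (by norm_num) (by positivity)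
  obtain ⟨L1', hL1⟩ := eventually_atTop.1 (l1.and l2)
  refine ⟨max (max X0 L1') 8, fun l N hl hReg hlX hX18 hlog F hF M hM => ?_⟩
  have hlX0 : X0 ≤ l := (le_max_left _ _).trans ((le_max_left _ _).trans hl)
  have hlL1 : L1' ≤ l := (le_max_right _ _).trans ((le_max_left _ _).trans hl)
  have hl8 : 8 ≤ l := (le_max_right _ _).trans hl
  set X : ℝ := Real.log N with hX
  obtain ⟨⟨⟨a1, a2⟩, a3, a4⟩, a5⟩ := hX0 X (hlX0.trans hlX)
  obtain ⟨b1, b2⟩ := hL1 l hlL1
  rw [one_mul] at b1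
  have hXp : 0 < X := by linarith
  have hlp : 0 < l := by linarith
  have hN : 1 ≤ N := by
    by_contra hcon
    have : N = 0 := by omega
    rw [hX, this] at hXp
    simp at hXp
  have hN0 : (0 : ℝ) < N := by exact_mod_cast hN
  set lX : ℝ := Real.log X with hlXd
  have h1000 : 1000 * l ≤ X := by
    calc 1000 * l = 2 * (l * 500) := by ring
      _ ≤ 2 * (l * lX) := by gcongr
      _ ≤ c1 * X := hlog
      _ ≤ 1 * X := by gcongr
      _ = X := one_mul _
  set U : ℕ := ⌈X⌉₊ + 6 with hU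
  have hU1 : X + 6 ≤ U := by
    rw [hU]; push_cast
    linarith [Nat.le_ceil X]
  have hU2 : (U : ℝ) ≤ X + 7 := by
    rw [hU]; push_cast
    linarith [Nat.ceil_lt_add_one hXp.le]
  have hUp : (0 : ℝ) < U := by linarith
  set P : ℕ := ⌈Real.exp (U + 1)⌉₊ with hP
  have hP1 : Real.exp (U + 1) ≤ P := Nat.le_ceil _
  have hP0 : (0 : ℝ) < P := lt_of_lt_of_le (Real.exp_pos _) hP1
  have hP2 : Real.log P ≤ X + 9 := by
    rw [Real.log_le_iff_le_exp hP0]
    have h1 := (Nat.ceil_lt_add_one (Real.exp_pos (U + 1 : ℝ)).le).le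
    rw [← hP] at h1
    have h2 : Real.exp (U + 1) ≤ Real.exp (X + 8) := Real.exp_le_exp.2 (by linarith)
    have h3 : Real.exp (X + 9) = Real.exp 1 * Real.exp (X + 8) := by rw [← Real.exp_add]; congr 1; ring
    have h4 : (2 : ℝ) ≤ Real.exp 1 := by linarith [Real.exp_one_gt_d9]
    have h5 : 1 ≤ Real.exp (X + 8) := Real.one_le_exp (by linarith)
    have h6 : 2 * Real.exp (X + 8) ≤ Real.exp 1 * Real.exp (X + 8) := by gcongr
    linarith
  set u0 : ℕ := ⌈C0 * (12 * l) * Real.log U⌉₊ with hu0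
  have hlU1 : lX ≤ Real.log U := Real.log_le_log hXp (by linarith)
  have hlU2 : Real.log U ≤ 2 * lX := by
    have h1 : Real.log (X * X) = 2 * lX := by rw [Real.log_mul hXp.ne' hXp.ne']; ring
    rw [← h1]
    apply Real.log_le_log hUp
    have : 25 * X ≤ X * X := by gcongr
    linarith
  have hu28 : 28 * l ≤ u0 := by
    refine le_trans ?_ (Nat.le_ceil _)
    have h1 : 28 ≤ C0 * 12 * Real.log U := by
      have h2 : 28 / (12 * C0) ≤ Real.log U := a2.trans hlU1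
      rw [div_le_iff₀ (by positivity)] at h2
      linarith
    calc 28 * l ≤ (C0 * 12 * Real.log U) * l := by gcongr
      _ = _ := by ring
  have huX : (u0 : ℝ) ≤ X / 10 := by
    have h1 := (Nat.ceil_lt_add_one (a := C0 * (12 * l) * Real.log U) (by
      have : 0 ≤ Real.log U := by linarith
      positivity)).le
    rw [← hu0] at h1
    have h2 : C0 * (12 * l) * Real.log U ≤ 12 / 200 * X := by
      calc C0 * (12 * l) * Real.log U ≤ C0 * (12 * l) * (2 * lX) := by gcongr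
        _ = 12 * C0 * (2 * (l * lX)) := by ring
        _ ≤ 12 * C0 * (c1 * X) := by gcongr
        _ = 12 * (C0 * c1) * X := by ring
        _ ≤ 12 * (1 / 200) * X := by gcongr
        _ = _ := by ring
    linarith
  set lo : ℕ := ⌈Real.exp (X / 2)⌉₊ with hlo
  have hlo1 : Real.exp (X / 2) ≤ lo := Nat.le_ceil _
  have hlo2 : (lo : ℝ) ≤ 2 * Real.exp (X / 2) := by
    have h1 := (Nat.ceil_lt_add_one (Real.exp_pos (X / 2)).le).le
    rw [← hlo] at h1
    have h2 : 1 ≤ Real.exp (X / 2) := Real.one_le_exp (by linarith)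
    linarith
  set w : ℕ := ⌈(1 + (F : ℝ) ^ 2) / Real.exp (-(6 * l))⌉₊ with hw
  have hw1 : (1 + (F : ℝ) ^ 2) / Real.exp (-(6 * l)) ≤ w := Nat.le_ceil _
  have hw0 : 0 < (1 + (F : ℝ) ^ 2) / Real.exp (-(6 * l)) := by positivity
  have hw8 : (w : ℝ) ≤ Real.exp (8 * l) := by
    have h1 := (Nat.ceil_lt_add_one hw0.le).le
    rw [← hw] at h1
    have h2 : (F : ℝ) ^ 2 ≤ Real.exp l := by
      calc (F : ℝ) ^ 2 ≤ Real.exp (l / 10) ^ 2 := by gcongr
        _ = Real.exp (l / 5) := by rw [← Real.exp_nat_mul]; congr 1; push_cast; ring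
        _ ≤ Real.exp l := Real.exp_le_exp.2 (by linarith)
    have h3 : (1 + (F : ℝ) ^ 2) / Real.exp (-(6 * l)) = (1 + (F : ℝ) ^ 2) * Real.exp (6 * l) := by
      rw [Real.exp_neg, div_inv_eq_mul]
    rw [h3] at h1
    have h4 : (1 : ℝ) ≤ Real.exp l := Real.one_le_exp hlp.le
    have h5 : (1 : ℝ) ≤ Real.exp (6 * l) := Real.one_le_exp (by linarith)
    have h6 : Real.exp (8 * l) = Real.exp l * (Real.exp l * Real.exp (6 * l)) := by
      rw [← Real.exp_add, ← Real.exp_add]; congr 1; ring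
    have h7 : (3 : ℝ) ≤ Real.exp l := by
      have := Real.add_one_le_exp l
      linarith
    calc (w : ℝ) ≤ (1 + (F : ℝ) ^ 2) * Real.exp (6 * l) + 1 := h1
      _ ≤ (Real.exp l + Real.exp l) * Real.exp (6 * l) + Real.exp l * Real.exp (6 * l) := by
          apply add_le_add
          · gcongr
          · exact one_le_mul_of_one_le_of_one_le h4 h5
      _ = 3 * (Real.exp l * Real.exp (6 * l)) := by ring
      _ ≤ Real.exp l * (Real.exp l * Real.exp (6 * l)) := by gcongr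
      _ = _ := h6.symm
  have hw11 : 1 ≤ w := Nat.one_le_iff_ne_zero.2 (by
    intro h0
    rw [h0] at hw1
    push_cast at hw1
    linarith)
  have hlsq : l ≤ l ^ 2 := le_self_pow₀ (by linarith) (by norm_num)
  have hXl : (1 + 2 * X) ^ 2 ≤ Real.exp l := by
    refine le_trans ?_ b1
    have h1 : 1 + 2 * X ≤ 37 * l ^ 2 := by linarith
    calc (1 + 2 * X) ^ 2 ≤ (37 * l ^ 2) ^ 2 := by gcongr
      _ = _ := by ring
  have hf1 : 3222 * X ^ A ≤ Real.exp (4 * l) := by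
    refine le_trans ?_ b2
    calc 3222 * X ^ A ≤ 3222 * (18 * l ^ 2) ^ A := by gcongr
      _ = _ := by rw [mul_pow, ← pow_mul]; ring
  have hα48 : 48 ≤ Real.exp l := by
    have h1 : (8 : ℝ) ^ 4 ≤ l ^ 4 := by gcongr
    have h2 : (37 : ℝ) ^ 2 * 8 ^ 4 ≤ 37 ^ 2 * l ^ 4 := by gcongr
    norm_num at h2
    linarith
  apply L1_fin (F := F) (N := N) (w := w) (P := P) (u0 := u0) (U := U) (lo := lo) (l := l) (X := X) (K := K)
    (D := A + 9) (A := A) rfl hN hX hl8 h1000 hXl hα48 hF hw1 hw8 hw11 hU1 hU2 hP1 hP2 hu28 huX hlo1 hlo2 hK _ hf1 a4 hM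
  intro r hr ψ hψ u hu ξ
  rw [Finset.mem_Icc] at hr hu
  have hr0 : NeZero r := ⟨by omega⟩
  have hψ1 : ψ ≠ 1 := Pool.Agent.P8H14.QP.pr_ne_one (by omega) (by rw [← pr_eq]; exact hψ) (by omega)
  have hrF : (r : ℝ) ≤ Real.exp (12 * l) := by
    have : (r : ℝ) ≤ F := by exact_mod_cast hr.2
    refine this.trans (hF.trans (Real.exp_le_exp.2 (by linarith)))
  have hu1 : (u0 : ℝ) ≤ u := by exact_mod_cast hu.1
  have hu2 : (u : ℝ) ≤ U := by exact_mod_cast hu.2
  have hXU : X ≤ U := by linarith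
  obtain ⟨⟨_, a3', _⟩, _⟩ := hX0 U ((hlX0.trans hlX).trans hXU)
  refine hMb (12 * l) (6 * l) U (Real.exp (-(6 * l))) u hReg (by ring) r hrF ψ hψ1 (by linarith) a3' ?_ (by linarith) rfl
    (by linarith) ((Nat.le_ceil _).trans hu1) (by linarith) ξ
  rw [Real.sqrt_le_left (by linarith)]
  have : (6 * l) ^ 2 = 36 * l ^ 2 := by ring
  rw [this]
  linarith

end Pool.Agent.P8H14.CF
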