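import Pool.Agent.P8H14.CF.Defs

set_option autoImplicit false

/-!
# Project CF: the statements of the packages (all of them only need Mathlib, except TT, which needs
`Pool.Agent.H373R2.NB.Weyl`)

Goal: at most scales `N` (upper log density `≥ 1 - ε`), for all but `N ^ (1 - c / log log N)` of the odd `A ≤ N`:
`P_A(n) = C(Δ) L_A(n) + O(√N / log ^ B N)` for all `n ≤ √N`.
The packages may assume each other: prove e.g. `theorem tt : S_MAJ → S_VB → S_TT`.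
-/

namespace Pool.Agent.P8H14.CF

open Finset Filter Topology

/-! ## T: the exponential sums -/

/-- (MAJ, 150 lines) The major arc approximation.
Proof. Split `n` into the classes `b` modulo `q`: `e((a/q + β) F n) = e(a F b / q) e(β F n)`. The function
`t ↦ e(β (t²+t))` has the derivative `2πiβ(2t+1) e(..)`, so `∑_{x0 < n ≤ x, n ≡ b (q)} e(β F n) =
(1/q) ∫_{x0}^{x} e(β(t²+t)) dt + O(1 + |β| x²)` (compare each term with the mean over an interval of length `q`).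
And `V x0 x β = ∑_k ∫_k^{k+1} rt'(s) e(βk) ds = ∫_{x0}^{x} e(β(t²+t)) dt + O(|β| x)` (substitution `s = t² + t`,
or avoid integrals: compare both with finer and finer Riemann sums; or Abel summation on both sides: the number of
`n ≡ b` with `x0 < n`, `F n ≤ s` is `(rt s - x0)/q + O(1)`, and `∑_{F x0 ≤ k < s} wt k = rt s - x0`, so by partial
summation against `e(β k)`, `F x0 ≤ k < F x`, the difference is `O(1 + |β| F x)`: this is the shortest way). -/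
def S_MAJ : Prop := ∃ C : ℝ, 0 < C ∧ ∀ x0 x q a : ℕ, x0 ≤ x → 1 ≤ x → 1 ≤ q → ∀ β : ℝ,
  ‖T x0 x (a / q + β) - G a q / q * V x0 x β‖ ≤ C * q * (1 + |β| * (x : ℝ) ^ 2)

/-- (VB, 100 lines) `wt` is nonnegative and decreasing, `wt (F x0) ≤ 1 / (2 x0 + 1)` (as `rt' s = 1 / (2 √(s + 1/4))`),
`|∑_{u ≤ k < v} e(βk)| ≤ 1 / (2δ)`; Abel summation. -/
def S_VB : Prop := ∀ x0 x : ℕ, 1 ≤ x0 → x0 ≤ x → ∀ β δ : ℝ, 0 < δ → (∀ n : ℤ, δ ≤ |β - n|) →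
  ‖V x0 x β‖ ≤ 1 / (x0 * δ)

/-- (TT, 250 lines; needs `Pool.Agent.H373R2.NB.Weyl`: `IW_all 2`, the inverse theorem for Weyl sums of degree 2)
The sum `T` is its major arc model up to a power of `Q`.
Proof (`dist` = distance modulo 1). Trivially `|T| ≤ x`, `|V| ≤ x`.
Case A: there are `q ≤ Q`, `(a, q) = 1`, with `dist(α, a/q) ≤ Q / x²`. `S_MAJ` gives `T(α) = G/q V(α - a/q) + O(Q²)`
(shift `α` by an integer: `T`, `V` have period 1). For the other fractions `a'/q'`, `q' ≤ Q`,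
`dist(α, a'/q') ≥ 1/Q² - Q/x² ≥ 1/(2Q²)`, so `S_VB` bounds their contribution by `Q² · 2Q²/x0`.
Case B: there are none. For at most one fraction `dist(α, a/q) < 1/(2Q²)`; for this one `dist > Q/x²`, so by `S_VB`
`|TM(α)| ≤ x²/(x0 Q) + 2Q⁴/x0`. And if `|T(α)| > x/u`, then one of the sums over `n < y`, `y = x + 1` or `x0 + 1`,
is `> x/(2u)`, so `y > x/(2u)`, and `IW_all 2` (phase `α n² + α n`, leading coefficient `2α`, `N = y`, `u := 4u`)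
gives `q' ≤ c (4u)^m` and `|2αq' - a'| ≤ c (4u)^m / y² ≤ c (4u)^(m+2) / x²`: with `a'/(2q')` in lowest terms this is
Case A if `2c(4u)^(m+2) ≤ Q`. Choose `u` with equality: `u = Q^κ / C`, `κ = 1/(m+2)`.
(If `Q` is bounded the claim is trivial, by the choice of `C`.) -/
def S_TT : Prop := ∃ κ C : ℝ, 0 < κ ∧ 0 < C ∧ ∀ x0 x Q : ℕ, 1 ≤ Q → 1 ≤ x0 → x0 ≤ x → Q ^ 6 ≤ x → ∀ α : ℝ,
  ‖T x0 x α - TM Q x0 x α‖ ≤ C * ((x : ℝ) ^ 2 / (x0 * (Q : ℝ) ^ κ))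

/-! ## C: from the fractions to the primitive characters -/

/-- (CQ, 300 lines) One modulus. `v` is supported on the residues coprime to `q`.
Proof. For `(x, q) = 1`: `e(x/q) = (1/φ(q)) ∑_χ τ(χ̄) χ(x)`. So the left side is `(1/φ(q)) ∑_χ χ(-1) τ(χ̄) H(χ)
∑_m v(m) χ(m)` with `H(χ) = (1/q) ∑_{b mod q} c_χ(F b + A)`, `c_χ(n) = ∑_{a mod q} χ(a) e(an/q)`. If `χ` is induced by
the primitive `ψ` mod `r`, then `τ(χ̄) = 0` unless `q = r k` with `k` squarefree and coprime to `r`, and then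
`|τ(χ̄)| = √r` and `c_χ(n) = ψ(k) ψ̄(n) τ(ψ) c_k(n)` (`c_k` the Ramanujan sum), so
`|H(χ)| = (√r / q) |∑_{b mod r} ψ̄(F b + A)| |∑_{b mod k} c_k(F b + A)| ≤ √r ∏_{p | k} |ρ_p - 1| ≤ √r`, because
`∑_{b mod p} c_p(F b + A) = p (ρ_p - 1)` and `0 ≤ ρ_p ≤ 2`. `r = 1` gives the main term exactly.
Helpful: `Pool.Agent.P8H14.QP.B1`, `B2` (Gauss sums of imprimitive characters, primitive characters). -/
def S_CQ : Prop := ∀ q A : ℕ, 1 ≤ q → ∀ (S : Finset ℕ) (v : ℕ → ℂ), (∀ m ∈ S, m.Coprime q) →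
  ‖∑ a ∈ rr q, G a q / q * e ((a : ℝ) * A / q) * ∑ m ∈ S, v m * e (-((a : ℝ) * m / q)) -
      (((((ArithmeticFunction.moebius q : ℤ) : ℝ) / (q.totient : ℝ) *
        ∏ p ∈ q.primeFactors, ((rho A p : ℝ) - 1) : ℝ)) : ℂ) * ∑ m ∈ S, v m‖ ≤
    ∑ r ∈ q.divisors.filter (fun r => r ≠ 1 ∧ r.Coprime (q / r)),
      ((r : ℝ) / r.totient) * (1 / ((q / r).totient : ℝ)) * ∑ ψ ∈ pr r, ‖∑ m ∈ S, v m * ψ (m : ZMod r)‖

/-- (CS, 150 lines) `S_CQ → S_CS`. Sum `S_CQ` over `q ≤ Q` with `v = th`, `S` = the `m ≤ M` coprime to `q`. The `m`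
not coprime to `q` contribute `∑_{p | q} log p ≤ log q` for each of the `≤ Q²` pairs `(q, a)` (`|G a q / q| ≤ 1`); put
them back in the main term and in the sums with `ψ` (again `≤ log q` each time; there are at most `r` characters
modulo `r`, `r / φ(r) ≤ r`). `∑_{k ≤ Q} 1/φ(k) ≤ C (1 + log Q)`, `r/φ(r) ≤ C (1 + log r)` (or `(1 + log r)^2`). -/
def S_CS : Prop := ∃ C : ℝ, 0 < C ∧ ∃ K : ℕ, ∀ Q M A : ℕ, 1 ≤ Q →
  ‖∑ q ∈ Icc 1 Q, ∑ a ∈ rr q, G a q / q * e ((a : ℝ) * A / q) *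
        ∑ m ∈ Icc 1 M, (th m : ℂ) * e (-((a : ℝ) * m / q)) -
      ((sing Q A : ℝ) : ℂ) * ∑ m ∈ Icc 1 M, (th m : ℂ)‖ ≤
    C * (1 + Real.log Q) ^ K * ∑ r ∈ Icc 2 Q, ∑ ψ ∈ pr r, ‖∑ m ∈ Icc 1 M, (th m : ℂ) * ψ (m : ZMod r)‖ +
      C * (Q : ℝ) ^ 5

/-! ## S: the singular series -/

/-- (EUL, 300 lines) For odd `A ≥ 3`, `D = 4A - 1 ≡ 3 mod 8`, `χ(n) = (n/D)` is a real nonprincipal character
modulo `D` (`D` is no square), `χ(2) = -1`, and `(Δ/p) = χ(p)` for odd `p` (quadratic reciprocity for Jacobi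
symbols, `Δ = -D ≡ 1 mod 4`), so `ρ_p - 1 = χ(p)` for all `p`. `g` is multiplicative with
`g(p^j) = -1/(p^j (p-1))`, `j ≥ 1`: `1 - x/(p-1) = (1 - x/p) ∑_j g(p^j) x^j` for `x ∈ {-1, 0, 1}` (for `p = 2`,
`x = -1`: both sides `2 = (3/2)(4/3)`). (1) periodicity. (2) `∏_{p ≤ z} (1 - χ(p)/p) → 1/L(1, χ)` (Mertens;
search the library for the Euler product or `∑ χ(p)/p` at `s = 1`), and the other factors converge absolutely;
`2C L = ∏_p (1 - χ(p)/(p-1)) / (1 - χ(p)/p) = ∑ g(a) χ(a) ≥ η` (each factor is positive and `1 + O(1/p²)`).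
(3) Dirichlet convolution: `μ(k)χ(k)/φ(k)` is the convolution of `g χ` and `μ χ / id`. -/
def S_EUL : Prop := ∃ (g : ℕ → ℝ) (η : ℝ), 0 < η ∧ Summable (fun a : ℕ => |g a| * √(a : ℝ)) ∧
  ∀ A : ℕ, 3 ≤ A → Odd A → ∃ L C : ℝ, 0 < L ∧
    (∀ x : ℕ, 1 ≤ x → |∑ n ∈ Icc 1 x, (chi A n : ℝ) / n - L| ≤ 16 * A / x) ∧
    IsC A C ∧ 2 * C * L = ∑' a : ℕ, g a * chi A a ∧ η ≤ 2 * C * L ∧
    ∀ Q : ℕ, sing Q A = ∑ a ∈ Icc 1 Q, g a * chi A a *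
      ∑ b ∈ Icc 1 (Q / a), ((ArithmeticFunction.moebius b : ℤ) : ℝ) * chi A b / b

/-- (SM, 200 lines) The mean square over odd `A` of short sums.
Proof. Square out; `χ_A(l₁)χ_A(l₂) = χ_A(l₁l₂)`, and for `l = 2^j l'`, `l'` odd, `χ_A(l) = (-1)^j ((1-4A)/l')`, which has
the period `l'` in `A = 2A' + 1` and the mean zero over a period if `l'` is not a square. So
`|∑_A χ_A(l₁l₂)| ≤ l₁l₂` if the odd part of `l₁l₂` is no square, `≤ N` else. First kind: `∑ |b₁||b₂| ≤ (Z d-sum)²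
≤ Z² (1+log Z)²`-type, `≤ N/Y`. Second kind: `l₁l₂` is a square or twice a square:
`∑ d(l₁) d(l₂)/(l₁l₂) ≤ ∑_{m > Y/2} d(2m²)²·.../m² ≤ (log)^K / Y`. (Write `l₁ = 2^i g a²`-style or use
`l₁l₂ ∈ {m², 2m²}`, `m ≥ Y/√2`, and the number of ways `≤ d(2m²)`, `d(l₁)d(l₂) ≤ d(2m²)²`.) -/
def S_SM : Prop := ∃ K N₀ : ℕ, ∀ N Y Z : ℕ, N₀ ≤ N → 1 ≤ Y → Y ≤ Z → Z ^ 3 ≤ N →
  ∀ b : ℕ → ℝ, (∀ l, |b l| ≤ l.divisors.card) →
    ∑ A ∈ (Icc 1 N).filter Odd, (∑ l ∈ Ioc Y Z, b l * chi A l / l) ^ 2 ≤ N * Real.log N ^ K / Y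

/-- (LG, 350 lines) Long sums are small for almost all `A`, by the classical large sieve.
Proof. Write `4A - 1 = D₀ f²` with `D₀` squarefree, so `χ_A(l) = ψ(l) 1_{(l,f)=1}`, `ψ = (·/D₀)` primitive modulo `D₀`.
The `A` with `f > N^(1/100)` are `≤ ∑_{f > N^(1/100)} (4N/f² + 1)`, `f ≤ 2√N`: few. For each `f ≤ N^(1/100)`, with
`b_f(l) = b(l) 1_{(l,f)=1}`: the fourth power of `∑_{L < l ≤ L'} b_f(l) ψ(l)/l` is `∑_n c(n) ψ(n)/n` with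
`|c(n)| ≤ d(n)^8 ≤ N^(1/100)`-type, `L⁴ < n ≤ 16 L⁴`, and the large sieve for primitive characters (only the
`ψ = (·/D₀)`) gives `∑_ψ |...|^8 ≤ (16 L⁴ + 16 N²) N^(1/10) / L⁴ ≤ N^(2/3 + 1/10)·300` because `L⁴ ≥ N^(4/3) / 16`. So for
each `f` at most `N^(4/5)` moduli `D₀` are bad, and `A` is determined by `D₀` and `f`.
The library has the large sieve for primitive characters (`Pool.Agent.P8H14.QP.B2.PE_le` or search `large sieve`). -/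
def S_LG : Prop := ∀ B : ℕ, ∃ N₀ : ℕ, ∀ N L L' : ℕ, N₀ ≤ N → N ≤ 8 * L ^ 3 → L' ≤ 2 * L → L' ≤ N ^ 4 →
  ∀ b : ℕ → ℝ, (∀ l, |b l| ≤ l.divisors.card) →
    ((((Icc 1 N).filter (fun A : ℕ => Odd A ∧
      1 / Real.log N ^ B < |∑ l ∈ Ioc L L', b l * chi A l / l|)).card : ℕ) : ℝ) ≤ (N : ℝ) ^ (1 - 1 / 1000 : ℝ)

/-- (TAIL, 150 lines) `S_SM → S_LG → S_TAIL`. The product is `1 + ∑_{Y < l ≤ N² Y} b(l) χ_A(l)/l` with
`b(l) = ∑_{k | l, k ≤ Y, l/k ≤ N²} μ(k)` (`b(l) = ∑_{k | l} μ(k) = 0` for `1 < l ≤ Y`, as then `l / k ≤ N²` is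
automatic). Split at `Z = ⌊N^(1/3)⌋`; `≤ 8 log N` dyadic intervals above, each `> 1/log^(B+2) N` only for
`N^(1-1/1000) ≤ N / Y` of the `A`. -/
def S_TAIL : Prop := ∀ B : ℕ, ∃ K N₀ : ℕ, ∀ N Y : ℕ, N₀ ≤ N → 1 ≤ Y → Y ^ 1000 ≤ N →
  ((((Icc 1 N).filter (fun A : ℕ => Odd A ∧ 1 / Real.log N ^ B <
      |(∑ n ∈ Icc 1 (N ^ 2), (chi A n : ℝ) / n) *
        (∑ k ∈ Icc 1 Y, ((ArithmeticFunction.moebius k : ℤ) : ℝ) * chi A k / k) - 1|)).card : ℕ) : ℝ) ≤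
    N * Real.log N ^ K / Y

/-- (SS, 250 lines) `S_EUL → S_TAIL → S_SS`. For all but `N log^K N / √Q` of the odd `A` and all `Y` in the grid
`⌈√Q (1 + 1/log^(B+3) N)^j⌉`, `≤ Q`, the product of `S_TAIL` is `1 + O(1/log^(B+3) N)`; `∑_{n ≤ N²} χ(n)/n = L + O(16/N)`;
so `|∑_{k ≤ Y} μχ/k| ≥ 1/(2L)`-type bounds give `1/L ≤ 4 + 2 log Q`, and `∑_{k ≤ Y} μ(k)χ(k)/k = 1/L + O(1/log^(B+1) N)`
for all `√Q ≤ Y ≤ Q` (between two grid points the sum changes by `≤ ∑ 1/k`). Insert this in (3) of `S_EUL` for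
`a ≤ √Q`; the `a > √Q` contribute `≤ ∑_{a > √Q} |g(a)| (1 + log Q) ≤ Q^(-1/4) (1+log Q) ∑ |g(a)|√a`. Lower bound for
`C`: `2 C L ≥ η`, and `L ≤ 3 log N` (from (1) with `x = N`). -/
def S_SS : Prop := ∀ B : ℕ, ∃ K N₀ : ℕ, ∀ N Q : ℕ, N₀ ≤ N → Real.log N ^ K ≤ Q → Q ^ 1000 ≤ N →
  ∃ E : Finset ℕ, (E.card : ℝ) ≤ N * Real.log N ^ K / √(Q : ℝ) ∧ ∀ A ∈ Icc 3 N, Odd A → A ∉ E →
    ∃ C : ℝ, IsC A C ∧ |sing Q A - 2 * C| ≤ 1 / Real.log N ^ B ∧ 1 / Real.log N ^ 2 ≤ C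

/-! ## P: from `log p` to the number of primes -/

/-- The number of the `x ∈ {0, ..., n}` such that `x ^ 2 + x + A` is prime. -/
def PA (A n : ℕ) : ℕ := ((range (n + 1)).filter (fun x => (F x + A).Prime)).card

/-- `L_A(n) = 2 ∫_0^n dx / log (x ^ 2 + x + A)` -/
noncomputable def LA (A n : ℕ) : ℝ := 2 * ∫ x in (0 : ℝ)..n, 1 / Real.log (x ^ 2 + x + A)

/-- (PL, 150 lines) Partial summation: `PA` counts the `x ≤ n` with weight `th (F x + A) / log (F x + A)`; the weights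
`1 / log (F x + A)` are positive, decreasing and `≤ 1`, and `∑_{1 ≤ x ≤ n} 1/log (F x + A) = L_A(n)/2 + O(1)`. -/
def S_PL : Prop := ∀ (A n : ℕ) (S W : ℝ), 3 ≤ A → 0 ≤ S →
  (∀ X : ℕ, X ≤ n → |∑ x ∈ Icc 1 X, th (F x + A) - 2 * S * X| ≤ W) →
    |(PA A n : ℝ) - S * LA A n| ≤ 2 * W + 2 * S + 1

/-! ## M: the major arcs in the physical space -/

/-- (AB, 150 lines) Abel summation for the major arcs. `f` plays the role of `th`; `M₀` is an upper bound for all sums.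
The left side of the conclusion is `∑_{k ∈ [F x0, F x)} wt(k) ∑_{q, a} (G a q / q) e(-a k / q) f(k + A)`; its inner
sums over `k < K` are, with `m = k + A`, differences of two sums as in the hypothesis.
`wt` is decreasing and `wt (F x0) ≤ 1/(2 x0 + 1)`, `∑ wt = x - x0`. -/
def S_AB : Prop := ∀ (f : ℕ → ℝ) (Q A x0 x : ℕ) (W s : ℝ), 1 ≤ x0 → x0 ≤ x → 0 ≤ W →
  (∀ M : ℕ, M ≤ F x + A → ‖∑ q ∈ Icc 1 Q, ∑ a ∈ rr q, G a q / q * e ((a : ℝ) * A / q) *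
        ∑ m ∈ Icc 1 M, (f m : ℂ) * e (-((a : ℝ) * m / q)) - ((s * M : ℝ) : ℂ)‖ ≤ W) →
    ‖∑ k ∈ Ico (F x0) (F x), (wt k : ℂ) * (f (k + A) : ℂ) *
        ∑ q ∈ Icc 1 Q, ∑ a ∈ rr q, G a q / q * e (-((a : ℝ) * k / q)) - ((s * (x - x0) : ℝ) : ℂ)‖ ≤
      4 * W / x0 + |s|

/-- (DU, 200 lines) Duality: the exceptional set. `E` is a set of `A ≤ N`; for each `A ∈ E` the sum of `f(F n + A)`
over `x0 < n ≤ x` differs from the sum with the model by at least `U`. Then `|E| U² ≤ B₀² ∑ f²`, where `B₀` bounds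
`T - TM` at all the frequencies `t / M`, `M ≥ 2(N + F x + 1)`. Proof: `h(A) = ∑_k r₂(k) f(k + A)` on `ℤ/M` is a
cyclic correlation of `r₂` and `f 1_[1, N + F x]` (no wrap around for `A ∈ [1, N]`), so by Parseval modulo `M`
`∑_{A ∈ E} |h(A)|² ≤ ∑_{A mod M} |h(A)|² = (1/M) ∑_t |r₂^(t)|² |f^(t)|² ≤ B₀² (1/M) ∑_t |f^(t)|² = B₀² ∑ f²`
(Mathlib: `ZMod.dft`, or prove Parseval from orthogonality of `e(t m / M)`). Here
`r₂(k) = 1[k = F n, x0 < n ≤ x] - 1[F x0 ≤ k < F x] wt(k) ∑_{q,a} (G a q/q) e(-a k/q)`, and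
`∑_k r₂(k) e(kα) = T x0 x α - TM Q x0 x α`. -/
def S_DU : Prop := ∀ (f : ℕ → ℝ) (Q N x0 x M : ℕ) (E : Finset ℕ) (U B₀ Φ : ℝ), E ⊆ Icc 1 N → 0 < U → x0 ≤ x →
  2 * (N + F x + 1) ≤ M → (∀ t : ℕ, t < M → ‖T x0 x ((t : ℝ) / M) - TM Q x0 x ((t : ℝ) / M)‖ ≤ B₀) →
  ∑ m ∈ Icc 1 (N + F x), f m ^ 2 ≤ Φ →
  (∀ A ∈ E, U ≤ ‖∑ n ∈ Ioc x0 x, (f (F n + A) : ℂ) - ∑ k ∈ Ico (F x0) (F x), (wt k : ℂ) * (f (k + A) : ℂ) *
        ∑ q ∈ Icc 1 Q, ∑ a ∈ rr q, G a q / q * e (-((a : ℝ) * k / q))‖) →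
    (E.card : ℝ) * U ^ 2 ≤ B₀ ^ 2 * Φ

end Pool.Agent.P8H14.CF
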