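import Pool.Agent.P8H14.CF.E6
import Pool.Agent.P8H14.CF.Stm
import Pool.Agent.H373R2.T7.LamMaj

set_option autoImplicit false

/-!
# Conjecture F on average: the prime number theorem, the size of the singular series, the major arcs
-/

open Finset Filter Topology

namespace Pool.Agent.P8H14.CF

lemma th_nonneg (n : ℕ) : 0 ≤ th n := by
  unfold th
  split_ifs
  · exact Real.log_natCast_nonneg _
  · exact le_rfl

lemma th_le_La (n : ℕ) : th n ≤ ArithmeticFunction.vonMangoldt n := by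
  unfold th
  split_ifs with h
  · rw [ArithmeticFunction.vonMangoldt_apply_prime h]
  · exact ArithmeticFunction.vonMangoldt_nonneg

lemma th_le_log {n N : ℕ} (h : n ≤ N) : th n ≤ Real.log N := by
  unfold th
  split_ifs with hp
  · exact Real.log_le_log (by exact_mod_cast hp.pos) (by exact_mod_cast h)
  · exact Real.log_natCast_nonneg _

lemma sum_La_sub_th {M : ℕ} (hM : 1 ≤ M) :
    |∑ n ∈ Icc 1 M, th n - ∑ n ∈ Icc 1 M, ArithmeticFunction.vonMangoldt n| ≤ 2 * √(M : ℝ) * Real.log M := by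
  have h1 := Chebyshev.psi_sub_theta_le (x := (M : ℝ)) (by exact_mod_cast hM)
  rw [Chebyshev.psi_sub_theta_eq_sum_not_prime, Nat.floor_natCast] at h1
  rw [abs_sub_comm, ← sum_sub_distrib, abs_of_nonneg (sum_nonneg fun n _ => sub_nonneg.2 (th_le_La n))]
  refine le_trans (le_of_eq ?_) h1
  have e : Icc 1 M = Ioc 0 M := by ext n; simp only [mem_Icc, mem_Ioc]; omega
  rw [e, sum_filter]
  apply sum_congr rfl
  intro n _
  unfold th
  by_cases hp : n.Prime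
  · rw [if_pos hp, if_neg (not_not.2 hp), ArithmeticFunction.vonMangoldt_apply_prime hp, sub_self]
  · rw [if_neg hp, if_pos hp, sub_zero]

/-- the prime number theorem -/
lemma pnt_th (A : ℕ) : ∀ᶠ X : ℝ in atTop, ∀ N : ℕ, X = Real.log N → ∀ M : ℕ, M ≤ 4 * N →
    |∑ n ∈ Icc 1 M, th n - M| ≤ N / X ^ A := by
  obtain ⟨C, N1, hC, hpnt⟩ := Pool.Agent.H373R2.T7.pnt_lam (A + 1)
  have c1 : ∀ᶠ X : ℝ in atTop, 48 * X ^ (A + 1) ≤ Real.exp (1 / 2 * X) := ev_pow_exp (A + 1) (1 / 2) 48 (by norm_num) (by norm_num)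
  filter_upwards [c1, eventually_ge_atTop (8 * C * 2 ^ (A + 1) * 2), eventually_ge_atTop (4 : ℝ),
    eventually_ge_atTop (2 * Real.log (N1 + 1))] with X h1 h2 h4 h5 N hXN M hM
  have hXp : 0 < X := by linarith
  have hN : 1 ≤ N := by
    by_contra hcon
    have : N = 0 := by omega
    rw [hXN, this] at hXp
    simp at hXp
  have hN0 : (0 : ℝ) < N := by exact_mod_cast hN
  have hNX : (N : ℝ) = Real.exp X := by rw [hXN, Real.exp_log hN0]
  have hee : Real.exp X = Real.exp (1 / 2 * X) * Real.exp (1 / 2 * X) := by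
    rw [← Real.exp_add]; congr 1; ring
  set s : ℝ := Real.exp (1 / 2 * X) with hs
  have hs0 : 0 < s := Real.exp_pos _
  have hs1 : 1 ≤ s := Real.one_le_exp (by linarith)
  have hXA : 0 < X ^ A := by positivity
  -- small terms
  have small : ∀ k : ℝ, k ≤ 24 → k * (X * s) ≤ N / X ^ A / 2 := by
    intro k hk
    rw [div_div, le_div_iff₀ (by positivity)]
    calc k * (X * s) * (X ^ A * 2) ≤ 24 * (X * s) * (X ^ A * 2) := by gcongr
      _ = s * (48 * X ^ (A + 1)) := by ring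
      _ ≤ s * s := by gcongr
      _ = N := by rw [hNX, hee]
  have hlog4 : Real.log ((4 * N : ℕ) : ℝ) ≤ 2 * X := by
    push_cast
    rw [Real.log_mul (by norm_num) hN0.ne', ← hXN]
    have : Real.log 4 ≤ 4 := by
      have := Real.log_le_sub_one_of_pos (show (0 : ℝ) < 4 by norm_num)
      linarith
    linarith
  rcases Nat.eq_zero_or_pos M with hM0 | hM0
  · rw [hM0]
    simp only [Icc_eq_empty_of_lt, Nat.lt_one_iff, sum_empty, Nat.cast_zero, sub_zero, abs_zero]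
    positivity
  have hMr : (1 : ℝ) ≤ M := by exact_mod_cast hM0
  have hMN : (M : ℝ) ≤ 4 * N := by exact_mod_cast hM
  rcases le_or_gt (M : ℝ) s with hMs | hMs
  · -- trivial
    have k1 : ∑ n ∈ Icc 1 M, th n ≤ M * (2 * X) := by
      have : ∀ n ∈ Icc 1 M, th n ≤ 2 * X := fun n hn =>
        (th_le_log ((mem_Icc.1 hn).2.trans hM)).trans hlog4
      refine (sum_le_card_nsmul _ _ _ this).trans ?_
      rw [nsmul_eq_mul, Nat.card_Icc, Nat.add_sub_cancel]
    have k2 : 0 ≤ ∑ n ∈ Icc 1 M, th n := sum_nonneg fun n _ => th_nonneg n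
    have k3 : |∑ n ∈ Icc 1 M, th n - M| ≤ 3 * (X * s) := by
      rw [abs_le]
      have k4 : M * (2 * X) ≤ 2 * (X * s) := by
        calc M * (2 * X) ≤ s * (2 * X) := by gcongr
          _ = _ := by ring
      have k5 : 0 ≤ X * s := by positivity
      have k6 : s ≤ X * s := le_mul_of_one_le_left hs0.le (by linarith)
      constructor <;> linarith
    have k4 := small 3 (by norm_num)
    have k5 : 0 ≤ N / X ^ A / 2 := by positivity
    linarith
  · have hN1M : N1 ≤ M := by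
      have e1 : ((N1 : ℝ) + 1) ≤ s := by
        rw [hs, ← Real.log_le_iff_le_exp (by positivity)]
        linarith
      have : (N1 : ℝ) ≤ M := by linarith
      exact_mod_cast this
    have hlM : X / 2 ≤ Real.log M := by
      rw [Real.le_log_iff_exp_le (by linarith)]
      have : X / 2 = 1 / 2 * X := by ring
      rw [this]
      exact hMs.le
    have k1 := hpnt M hN1M
    have k2 := sum_La_sub_th hM0
    have k3 : Real.log M ≤ 2 * X := le_trans (Real.log_le_log (by linarith) (by exact_mod_cast hM)) hlog4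
    have k4 : √(M : ℝ) ≤ 2 * s := by
      rw [Real.sqrt_le_left (by positivity)]
      calc (M : ℝ) ≤ 4 * N := hMN
        _ = (2 * s) ^ 2 := by rw [hNX, hee]; ring
    have k5 : 2 * √(M : ℝ) * Real.log M ≤ 8 * (X * s) := by
      calc 2 * √(M : ℝ) * Real.log M ≤ 2 * (2 * s) * (2 * X) := by gcongr
        _ = _ := by ring
    have k6 : C * (M / Real.log M ^ (A + 1)) ≤ N / X ^ A / 4 := by
      calc C * (M / Real.log M ^ (A + 1)) ≤ C * (4 * N / (X / 2) ^ (A + 1)) := by gcongr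
        _ = (4 * C * 2 ^ (A + 1)) * N / (X ^ A * X) := by
            rw [div_pow, pow_succ X]
            field_simp
        _ ≤ N / X ^ A / 4 := by
            rw [div_div, div_le_div_iff₀ (by positivity) (by positivity)]
            calc 4 * C * 2 ^ (A + 1) * N * (X ^ A * 4) = (8 * C * 2 ^ (A + 1) * 2) * (N * X ^ A) := by ring
              _ ≤ X * (N * X ^ A) := by gcongr
              _ = _ := by ring
    have k7 : (2 : ℝ) ≤ 1 * (X * s) := by
      have : 4 * 1 ≤ X * s := by gcongr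
      linarith
    have k8 := small 9 (by norm_num)
    have e : ∑ n ∈ Icc 1 M, th n - M = (∑ n ∈ Icc 1 M, th n - ∑ n ∈ Icc 1 M, ArithmeticFunction.vonMangoldt n) +
        (Pool.Agent.H373R2.T7.lam1 M - M) := by
      unfold Pool.Agent.H373R2.T7.lam1
      ring
    rw [e]
    have k9 : 0 ≤ N / X ^ A / 4 := by positivity
    have k10 : N / X ^ A / 2 + N / X ^ A / 4 + N / X ^ A / 4 = N / X ^ A := by ring
    refine (abs_add_le _ _).trans ?_
    linarith

lemma harm_le (n : ℕ) : ∑ b ∈ Icc 1 n, (1 : ℝ) / b ≤ 1 + Real.log n := by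
  have h1 := harmonic_le_one_add_log n
  rw [harmonic_eq_sum_Icc] at h1
  push_cast at h1
  simpa only [one_div] using h1

lemma chi_abs (A n : ℕ) : |(chi A n : ℝ)| ≤ 1 := by
  unfold chi
  rcases jacobiSym.trichotomy (n : ℤ) (4 * A - 1) with h | h | h <;> rw [h] <;> norm_num

/-- the size of the singular series -/
lemma sing_bd (hE : S_EUL) : ∃ G : ℝ, 0 < G ∧ ∀ A : ℕ, 3 ≤ A → Odd A → ∀ Q : ℕ, 1 ≤ Q →
    |sing Q A| ≤ G * (1 + Real.log Q) := by
  obtain ⟨g, η, _, hsum, h⟩ := hE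
  refine ⟨(∑' a : ℕ, |g a| * √(a : ℝ)) + 1, by
    have : 0 ≤ ∑' a : ℕ, |g a| * √(a : ℝ) := tsum_nonneg fun a => by positivity
    linarith, fun A hA hodd Q hQ => ?_⟩
  obtain ⟨L, C, _, _, _, _, _, hs⟩ := h A hA hodd
  rw [hs Q]
  have hlQ : 0 ≤ Real.log Q := Real.log_natCast_nonneg _
  have h1 : ∀ a ∈ Icc 1 Q, |g a * chi A a * ∑ b ∈ Icc 1 (Q / a), ((ArithmeticFunction.moebius b : ℤ) : ℝ) * chi A b / b| ≤
      |g a| * √(a : ℝ) * (1 + Real.log Q) := by
    intro a ha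
    rw [mem_Icc] at ha
    have ha1 : (1 : ℝ) ≤ a := by exact_mod_cast ha.1
    have h2 : |∑ b ∈ Icc 1 (Q / a), ((ArithmeticFunction.moebius b : ℤ) : ℝ) * chi A b / b| ≤ 1 + Real.log Q := by
      refine (abs_sum_le_sum_abs _ _).trans ?_
      have h3 : ∀ b ∈ Icc 1 (Q / a), |((ArithmeticFunction.moebius b : ℤ) : ℝ) * chi A b / b| ≤ (1 : ℝ) / b := by
        intro b _
        rw [abs_div, abs_mul, Nat.abs_cast]
        have h4 : |((ArithmeticFunction.moebius b : ℤ) : ℝ)| ≤ 1 := by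
          have := ArithmeticFunction.abs_moebius_le_one (n := b)
          exact_mod_cast this
        have h5 := chi_abs A b
        gcongr
        calc |((ArithmeticFunction.moebius b : ℤ) : ℝ)| * |(chi A b : ℝ)| ≤ 1 * 1 := by gcongr
          _ = 1 := one_mul 1
      refine (sum_le_sum h3).trans ((harm_le _).trans ?_)
      rcases Nat.eq_zero_or_pos (Q / a) with h0 | h0
      · rw [h0]; simp only [Nat.cast_zero, Real.log_zero]; linarith
      · have : Real.log ((Q / a : ℕ) : ℝ) ≤ Real.log Q :=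
          Real.log_le_log (by exact_mod_cast h0) (by exact_mod_cast Nat.div_le_self Q a)
        linarith
    rw [abs_mul, abs_mul]
    have h6 := chi_abs A a
    have h7 : 1 ≤ √(a : ℝ) := by
      rw [Real.one_le_sqrt]; exact ha1
    calc |g a| * |(chi A a : ℝ)| * |∑ b ∈ Icc 1 (Q / a), ((ArithmeticFunction.moebius b : ℤ) : ℝ) * chi A b / b| ≤
        |g a| * 1 * (1 + Real.log Q) := by gcongr
      _ ≤ |g a| * √(a : ℝ) * (1 + Real.log Q) := by gcongr
  refine (abs_sum_le_sum_abs _ _).trans ((sum_le_sum h1).trans ?_)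
  rw [← sum_mul]
  have h2 : ∑ a ∈ Icc 1 Q, |g a| * √(a : ℝ) ≤ ∑' a : ℕ, |g a| * √(a : ℝ) :=
    hsum.sum_le_tsum _ (fun a _ => by positivity)
  gcongr
  linarith

/-- **the major arcs at one scale** -/
theorem major {C G : ℝ} {K : ℕ} (hC : 0 < C) (hG : 0 < G)
    (hCS : ∀ Q M A : ℕ, 1 ≤ Q →
      ‖∑ q ∈ Icc 1 Q, ∑ a ∈ rr q, Pool.Agent.P8H14.CF.G a q / q * e ((a : ℝ) * A / q) *
        ∑ m ∈ Icc 1 M, (th m : ℂ) * e (-((a : ℝ) * m / q)) -
      ((sing Q A : ℝ) : ℂ) * ∑ m ∈ Icc 1 M, (th m : ℂ)‖ ≤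
      C * (1 + Real.log Q) ^ K * ∑ r ∈ Icc 2 Q, ∑ ψ ∈ pr r, ‖∑ m ∈ Icc 1 M, (th m : ℂ) * ψ (m : ZMod r)‖ +
      C * (Q : ℝ) ^ 5)
    {N Q A : ℕ} {X δ : ℝ} (hQ : 1 ≤ Q) (hQX : 1 + Real.log Q ≤ X) (hδ : 0 ≤ δ) (hs : |sing Q A| ≤ G * X)
    (hL1 : ∀ M : ℕ, M ≤ 4 * N →
      ∑ r ∈ Icc 2 Q, ∑ ψ ∈ pr r, ‖∑ n ∈ Icc 1 M, ((th n : ℝ) : ℂ) * ψ (n : ZMod r)‖ ≤ δ)
    (hP : ∀ M : ℕ, M ≤ 4 * N → |∑ n ∈ Icc 1 M, th n - M| ≤ δ) (hQ5 : (Q : ℝ) ^ 5 ≤ δ) :
    ∀ M : ℕ, M ≤ 4 * N → ‖∑ q ∈ Icc 1 Q, ∑ a ∈ rr q, Pool.Agent.P8H14.CF.G a q / q * e ((a : ℝ) * A / q) *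
        ∑ m ∈ Icc 1 M, (th m : ℂ) * e (-((a : ℝ) * m / q)) - ((sing Q A * M : ℝ) : ℂ)‖ ≤
      (C * X ^ K + C + G * X) * δ := by
  intro M hM
  have hlQ : 0 ≤ Real.log Q := Real.log_natCast_nonneg _
  have h1 := hCS Q M A hQ
  have h2 : ‖((sing Q A : ℝ) : ℂ) * ∑ m ∈ Icc 1 M, (th m : ℂ) - ((sing Q A * M : ℝ) : ℂ)‖ ≤ G * X * δ := by
    have e1 : ((sing Q A : ℝ) : ℂ) * ∑ m ∈ Icc 1 M, (th m : ℂ) - ((sing Q A * M : ℝ) : ℂ) =
        ((sing Q A * (∑ m ∈ Icc 1 M, th m - M) : ℝ) : ℂ) := by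
      push_cast
      ring
    rw [e1, Complex.norm_real, Real.norm_eq_abs, abs_mul]
    have h3 := hP M hM
    have h4 : 0 ≤ |sing Q A| := abs_nonneg _
    exact mul_le_mul hs h3 (abs_nonneg _) (h4.trans hs)
  have h3 := hL1 M hM
  have h4 : C * (1 + Real.log Q) ^ K * ∑ r ∈ Icc 2 Q, ∑ ψ ∈ pr r, ‖∑ m ∈ Icc 1 M, (th m : ℂ) * ψ (m : ZMod r)‖ +
      C * (Q : ℝ) ^ 5 ≤ C * X ^ K * δ + C * δ := by
    have hX0 : 0 ≤ X := by linarith
    have : 0 ≤ C * X ^ K := by positivity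
    gcongr
  have e := norm_add_le (∑ q ∈ Icc 1 Q, ∑ a ∈ rr q, Pool.Agent.P8H14.CF.G a q / q * e ((a : ℝ) * A / q) *
        ∑ m ∈ Icc 1 M, (th m : ℂ) * e (-((a : ℝ) * m / q)) - ((sing Q A : ℝ) : ℂ) * ∑ m ∈ Icc 1 M, (th m : ℂ))
    (((sing Q A : ℝ) : ℂ) * ∑ m ∈ Icc 1 M, (th m : ℂ) - ((sing Q A * M : ℝ) : ℂ))
  rw [sub_add_sub_cancel] at e
  calc _ ≤ _ := e
    _ ≤ (C * X ^ K * δ + C * δ) + G * X * δ := add_le_add (h1.trans h4) h2
    _ = _ := by ring

end Pool.Agent.P8H14.CF
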