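import Pool.Agent.P8H14.CF.F1

set_option autoImplicit false

/-!
# Conjecture F on average: one scale
-/

open Finset Filter Topology

namespace Pool.Agent.P8H14.CF

/-- the main part of the sum -/
noncomputable def mainS (Q x0 x A : ℕ) : ℂ := ∑ k ∈ Ico (F x0) (F x), (wt k : ℂ) * (th (k + A) : ℂ) *
  ∑ q ∈ Icc 1 Q, ∑ a ∈ rr q, G a q / q * e (-((a : ℝ) * k / q))

open Classical in
/-- the exceptional set -/
noncomputable def Ex (Q N x0 x : ℕ) (U : ℝ) : Finset ℕ :=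
  (Icc 1 N).filter (fun A => U ≤ ‖∑ n ∈ Ioc x0 x, (th (F n + A) : ℂ) - mainS Q x0 x A‖)

lemma F_le {x N : ℕ} (hx : x ^ 2 ≤ N) : F x ≤ 2 * N := by
  unfold F
  have : x ≤ x ^ 2 := Nat.le_self_pow two_ne_zero x
  omega

lemma F_mono {x y : ℕ} (h : x ≤ y) : F x ≤ F y := by
  unfold F
  have : x ^ 2 ≤ y ^ 2 := Nat.pow_le_pow_left h 2
  omega

lemma Ex_card (hDU : S_DU) {κ CT : ℝ} (hCT : 0 < CT)
    (hTT : ∀ x0 x Q : ℕ, 1 ≤ Q → 1 ≤ x0 → x0 ≤ x → Q ^ 6 ≤ x → ∀ α : ℝ,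
      ‖T x0 x α - TM Q x0 x α‖ ≤ CT * ((x : ℝ) ^ 2 / (x0 * (Q : ℝ) ^ κ)))
    {N Q x0 x : ℕ} {X U : ℝ} (hlog : Real.log ((4 * N : ℕ) : ℝ) ≤ 2 * X) (hX : 0 ≤ X) (hQ : 1 ≤ Q) (h0 : 1 ≤ x0)
    (hx : x0 ≤ x) (hxN : x ^ 2 ≤ N) (hQx : Q ^ 6 ≤ x) (hU : 0 < U) :
    ((Ex Q N x0 x U).card : ℝ) * U ^ 2 ≤ (CT * (N / (x0 * (Q : ℝ) ^ κ))) ^ 2 * (12 * N * X ^ 2) := by
  have hQ0 : (0 : ℝ) < Q := by exact_mod_cast hQ
  have hx00 : (0 : ℝ) < x0 := by exact_mod_cast h0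
  have hQκ : 0 < (Q : ℝ) ^ κ := Real.rpow_pos_of_pos hQ0 _
  have hxN' : (x : ℝ) ^ 2 ≤ N := by exact_mod_cast hxN
  have hF := F_le hxN
  apply hDU th Q N x0 x (2 * (N + F x + 1)) (Ex Q N x0 x U) U (CT * (N / (x0 * (Q : ℝ) ^ κ))) (12 * N * X ^ 2)
    (filter_subset _ _) hU hx le_rfl
  · intro t _
    refine (hTT x0 x Q hQ h0 hx hQx _).trans ?_
    gcongr
  · have h1 : ∀ m ∈ Icc 1 (N + F x), th m ^ 2 ≤ (2 * X) ^ 2 := by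
      intro m hm
      rw [mem_Icc] at hm
      have h2 : th m ≤ 2 * X := (th_le_log (N := 4 * N) (by omega)).trans hlog
      have := th_nonneg m
      gcongr
    refine (sum_le_card_nsmul _ _ _ h1).trans ?_
    rw [nsmul_eq_mul, Nat.card_Icc, Nat.add_sub_cancel]
    have h2 : ((N + F x : ℕ) : ℝ) ≤ 3 * N := by
      have : N + F x ≤ 3 * N := by omega
      exact_mod_cast this
    calc _ ≤ (3 * N) * (2 * X) ^ 2 := by gcongr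
      _ = _ := by ring
  · intro A hA
    have := (mem_filter.1 hA).2
    exact this

lemma one_A (hAB : S_AB) {N Q x0 x A : ℕ} {U W : ℝ} (h0 : 1 ≤ x0) (hx : x0 ≤ x) (hxN : x ^ 2 ≤ N) (hA1 : 1 ≤ A)
    (hAN : A ≤ N) (hAE : A ∉ Ex Q N x0 x U) (hW : 0 ≤ W)
    (hmaj : ∀ M : ℕ, M ≤ 4 * N → ‖∑ q ∈ Icc 1 Q, ∑ a ∈ rr q, G a q / q * e ((a : ℝ) * A / q) *
        ∑ m ∈ Icc 1 M, (th m : ℂ) * e (-((a : ℝ) * m / q)) - ((sing Q A * M : ℝ) : ℂ)‖ ≤ W) :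
    |∑ n ∈ Ioc x0 x, th (F n + A) - sing Q A * (x - x0)| ≤ U + 4 * W / x0 + |sing Q A| := by
  have hF := F_le hxN
  have h1 := hAB th Q A x0 x W (sing Q A) h0 hx hW (fun M hM => hmaj M (by omega))
  have h2 : ‖∑ n ∈ Ioc x0 x, (th (F n + A) : ℂ) - mainS Q x0 x A‖ < U := by
    by_contra hcon
    exact hAE (mem_filter.2 ⟨mem_Icc.2 ⟨hA1, hAN⟩, not_lt.1 hcon⟩)
  have h3 : ‖mainS Q x0 x A - ((sing Q A * (x - x0) : ℝ) : ℂ)‖ ≤ 4 * W / x0 + |sing Q A| := h1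
  have h4 := norm_add_le (∑ n ∈ Ioc x0 x, (th (F n + A) : ℂ) - mainS Q x0 x A)
    (mainS Q x0 x A - ((sing Q A * (x - x0) : ℝ) : ℂ))
  rw [sub_add_sub_cancel] at h4
  have e : ∑ n ∈ Ioc x0 x, (th (F n + A) : ℂ) - ((sing Q A * (x - x0) : ℝ) : ℂ) =
      ((∑ n ∈ Ioc x0 x, th (F n + A) - sing Q A * (x - x0) : ℝ) : ℂ) := by push_cast; ring
  rw [e, Complex.norm_real, Real.norm_eq_abs] at h4
  linarith

/-- the trivial bound on short intervals -/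
lemma short {N A u v : ℕ} {X : ℝ} (hlog : Real.log ((4 * N : ℕ) : ℝ) ≤ 2 * X) (hv : v ^ 2 ≤ N) (hA : A ≤ N) :
    0 ≤ ∑ n ∈ Ioc u v, th (F n + A) ∧ ∑ n ∈ Ioc u v, th (F n + A) ≤ ((v - u : ℕ) : ℝ) * (2 * X) := by
  refine ⟨sum_nonneg fun n _ => th_nonneg _, ?_⟩
  have hF := F_le hv
  have h1 : ∀ n ∈ Ioc u v, th (F n + A) ≤ 2 * X := by
    intro n hn
    have h2 := F_mono (mem_Ioc.1 hn).2
    exact (th_le_log (N := 4 * N) (by omega)).trans hlog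
  refine (sum_le_card_nsmul _ _ _ h1).trans ?_
  rw [nsmul_eq_mul, Nat.card_Ioc]

/-- **one scale** -/
theorem scale (hDU : S_DU) (hAB : S_AB) {κ CT : ℝ} (hCT : 0 < CT)
    (hTT : ∀ x0 x Q : ℕ, 1 ≤ Q → 1 ≤ x0 → x0 ≤ x → Q ^ 6 ≤ x → ∀ α : ℝ,
      ‖T x0 x α - TM Q x0 x α‖ ≤ CT * ((x : ℝ) ^ 2 / (x0 * (Q : ℝ) ^ κ)))
    {N Q x0 K b : ℕ} {X W : ℝ} (hN : 1 ≤ N) (hX : X = Real.log N) (hX20 : 20 ≤ X) (hQ : 1 ≤ Q) (h0 : 1 ≤ x0)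
    (hx01 : √(N : ℝ) / X ^ b ≤ x0) (hx02 : (x0 : ℝ) ≤ 2 * (√(N : ℝ) / X ^ b)) (hQ6 : Q ^ 6 ≤ x0)
    (hX2 : X ^ 2 ≤ √(N : ℝ) / X ^ b) (hW0 : 0 ≤ W) (hW : W ≤ N / X ^ (2 * b))
    (hs : ∀ A : ℕ, 3 ≤ A → Odd A → |sing Q A| ≤ X ^ 2)
    (hmaj : ∀ A : ℕ, 3 ≤ A → A ≤ N → Odd A → ∀ M : ℕ, M ≤ 4 * N →
      ‖∑ q ∈ Icc 1 Q, ∑ a ∈ rr q, G a q / q * e ((a : ℝ) * A / q) *
        ∑ m ∈ Icc 1 M, (th m : ℂ) * e (-((a : ℝ) * m / q)) - ((sing Q A * M : ℝ) : ℂ)‖ ≤ W)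
    (hSS : ∃ E : Finset ℕ, (E.card : ℝ) ≤ N * X ^ K / √(Q : ℝ) ∧ ∀ A ∈ Icc 3 N, Odd A → A ∉ E →
      ∃ C : ℝ, IsC A C ∧ |sing Q A - 2 * C| ≤ 1 / X ^ b ∧ 1 / X ^ 2 ≤ C) :
    ∃ E : Finset ℕ, (E.card : ℝ) ≤ N * X ^ K / √(Q : ℝ) + 12 * CT ^ 2 * N * X ^ (5 * b + 2) / ((Q : ℝ) ^ κ) ^ 2 ∧
      ∀ A ∈ Icc 3 N, Odd A → A ∉ E → ∃ C : ℝ, IsC A C ∧ 1 / X ^ 2 ≤ C ∧ 2 * C ≤ 2 * X ^ 2 ∧
        ∀ Y : ℕ, Y ^ 2 ≤ N → |∑ n ∈ Icc 1 Y, th (F n + A) - 2 * C * Y| ≤ 20 * X ^ 2 * (√(N : ℝ) / X ^ b) := by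
  classical
  obtain ⟨E0, hE0, hSS⟩ := hSS
  have hN0 : (0 : ℝ) < N := by exact_mod_cast hN
  have hXp : 0 < X := by linarith
  have hQ0 : (0 : ℝ) < Q := by exact_mod_cast hQ
  have hx00 : (0 : ℝ) < x0 := by exact_mod_cast h0
  have hQκ : 0 < (Q : ℝ) ^ κ := Real.rpow_pos_of_pos hQ0 _
  set R : ℝ := √(N : ℝ) / X ^ b with hR
  have hsN : 0 < √(N : ℝ) := Real.sqrt_pos.2 hN0
  have hR0 : 0 < R := by positivity
  have hlog4 : Real.log ((4 * N : ℕ) : ℝ) ≤ 2 * X := by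
    push_cast
    rw [Real.log_mul (by norm_num) hN0.ne', ← hX]
    have : Real.log 4 ≤ 4 := by
      have := Real.log_le_sub_one_of_pos (show (0 : ℝ) < 4 by norm_num)
      linarith
    linarith
  set s0 : ℕ := Nat.sqrt N with hs0
  set J : ℕ := s0 / x0 with hJ
  have hsN2 : √(N : ℝ) * √(N : ℝ) = N := Real.mul_self_sqrt hN0.le
  have hs0r : (s0 : ℝ) ≤ √(N : ℝ) := by
    apply Real.le_sqrt_of_sq_le
    have := Nat.sqrt_le' N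
    exact_mod_cast this
  have hJr : (J : ℝ) ≤ X ^ b := by
    have h1 : (J : ℝ) ≤ s0 / x0 := by rw [hJ]; exact Nat.cast_div_le
    refine h1.trans ?_
    rw [div_le_iff₀ hx00]
    calc (s0 : ℝ) ≤ √(N : ℝ) := hs0r
      _ = X ^ b * R := by rw [hR]; field_simp
      _ ≤ X ^ b * x0 := by gcongr
  have hgrid : ∀ j ∈ Icc 1 J, x0 ≤ j * x0 ∧ (j * x0) ^ 2 ≤ N := by
    intro j hj
    rw [mem_Icc] at hj
    refine ⟨Nat.le_mul_of_pos_left _ (by omega), ?_⟩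
    have h1 : j * x0 ≤ s0 := (Nat.mul_le_mul_right _ hj.2).trans (Nat.div_mul_le_self s0 x0)
    calc (j * x0) ^ 2 ≤ s0 ^ 2 := Nat.pow_le_pow_left h1 2
      _ ≤ N := Nat.sqrt_le' N
  set E1 : Finset ℕ := (Icc 1 J).biUnion (fun j => Ex Q N x0 (j * x0) R) with hE1
  have hEx : ∀ j ∈ Icc 1 J, ((Ex Q N x0 (j * x0) R).card : ℝ) ≤ 12 * CT ^ 2 * N * X ^ (4 * b + 2) / ((Q : ℝ) ^ κ) ^ 2 := by
    intro j hj
    obtain ⟨g1, g2⟩ := hgrid j hj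
    have h1 := Ex_card hDU (κ := κ) hCT hTT hlog4 hXp.le hQ h0 g1 g2 (hQ6.trans g1) hR0
    have h2 : (CT * (N / (x0 * (Q : ℝ) ^ κ))) ^ 2 * (12 * N * X ^ 2) ≤
        (CT * (N / (R * (Q : ℝ) ^ κ))) ^ 2 * (12 * N * X ^ 2) := by gcongr
    have h3 := h1.trans h2
    rw [← le_div_iff₀ (by positivity)] at h3
    refine h3.trans (le_of_eq ?_)
    rw [hR]
    have e1 : X ^ (4 * b + 2) = (X ^ b) ^ 4 * X ^ 2 := by rw [← pow_mul, ← pow_add]; congr 1; ring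
    have e2 : (N : ℝ) ^ 2 = √(N : ℝ) ^ 4 := by
      calc (N : ℝ) ^ 2 = (√(N : ℝ) * √(N : ℝ)) ^ 2 := by rw [hsN2]
        _ = _ := by ring
    rw [e1]
    field_simp
    rw [e2]
  have hE1c : (E1.card : ℝ) ≤ 12 * CT ^ 2 * N * X ^ (5 * b + 2) / ((Q : ℝ) ^ κ) ^ 2 := by
    have h1 : (E1.card : ℝ) ≤ ∑ j ∈ Icc 1 J, ((Ex Q N x0 (j * x0) R).card : ℝ) := by
      exact_mod_cast card_biUnion_le
    refine h1.trans ((sum_le_card_nsmul _ _ _ hEx).trans ?_)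
    rw [nsmul_eq_mul, Nat.card_Icc, Nat.add_sub_cancel]
    have e1 : X ^ (5 * b + 2) = X ^ b * X ^ (4 * b + 2) := by rw [← pow_add]; congr 1; ring
    rw [e1]
    calc (J : ℝ) * (12 * CT ^ 2 * N * X ^ (4 * b + 2) / ((Q : ℝ) ^ κ) ^ 2) ≤
        X ^ b * (12 * CT ^ 2 * N * X ^ (4 * b + 2) / ((Q : ℝ) ^ κ) ^ 2) := by gcongr
      _ = _ := by ring
  refine ⟨E0 ∪ E1, ?_, fun A hA hodd hAE => ?_⟩
  · have : ((E0 ∪ E1).card : ℝ) ≤ E0.card + E1.card := by exact_mod_cast card_union_le _ _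
    linarith
  rw [mem_union, not_or] at hAE
  obtain ⟨C, hC1, hC2, hC3⟩ := hSS A hA hodd hAE.1
  rw [mem_Icc] at hA
  have hsA := hs A hA.1 hodd
  set s := sing Q A with hsd
  have hXb1 : 1 ≤ X ^ b := one_le_pow₀ (by linarith)
  have hXb : 1 / X ^ b ≤ 1 := by rw [div_le_one (by positivity)]; exact hXb1
  have hC0 : 0 < C := lt_of_lt_of_le (by positivity) hC3
  have hX21 : 400 ≤ X ^ 2 := by
    calc (400 : ℝ) = 20 ^ 2 := by norm_num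
      _ ≤ X ^ 2 := by gcongr
  have h2C : 2 * C ≤ X ^ 2 + 1 := by
    have h1 := (abs_le.1 hC2).1
    have h2 := (abs_le.1 hsA).2
    linarith
  refine ⟨C, hC1, hC3, by linarith, fun Y hY => ?_⟩
  have hIoc : ∀ Y : ℕ, Icc 1 Y = Ioc 0 Y := fun Y => by ext n; simp only [mem_Icc, mem_Ioc]; omega
  rw [hIoc]
  have hx0R : (x0 : ℝ) ≤ 2 * R := hx02
  have hRX : 0 ≤ R * X := by positivity
  have hXX2 : 20 * X ≤ X ^ 2 := by
    calc 20 * X ≤ X * X := by gcongr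
      _ = X ^ 2 := by ring
  have hA1 : 1 ≤ A := by omega
  rcases Nat.lt_or_ge Y x0 with hYx | hYx
  · -- short sums
    obtain ⟨k1, k2⟩ := short (u := 0) (A := A) hlog4 hY hA.2
    rw [Nat.sub_zero] at k2
    have hYr : (Y : ℝ) ≤ x0 := by exact_mod_cast hYx.le
    have k3 : (Y : ℝ) * (2 * X) ≤ 2 * R * (2 * X) := by gcongr; linarith
    have k4 : 2 * C * Y ≤ (X ^ 2 + 1) * (2 * R) := by
      calc 2 * C * Y ≤ (X ^ 2 + 1) * Y := by gcongr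
        _ ≤ _ := by gcongr; linarith
    have k5 : 0 ≤ 2 * C * (Y : ℝ) := by positivity
    have k6 : 2 * R * (2 * X) = 4 * (R * X) := by ring
    have k7 : 20 * (R * X) ≤ X ^ 2 * R := by
      calc 20 * (R * X) = (20 * X) * R := by ring
        _ ≤ X ^ 2 * R := by gcongr
    have k8 : (X ^ 2 + 1) * (2 * R) = 2 * (X ^ 2 * R) + 2 * R := by ring
    have k9 : 400 * R ≤ X ^ 2 * R := by gcongr
    have k10 : 20 * X ^ 2 * R = 20 * (X ^ 2 * R) := by ring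
    rw [abs_le]
    constructor <;> linarith
  · -- the grid
    set j := Y / x0 with hj
    have hYs : Y ≤ s0 := Nat.le_sqrt'.2 hY
    have hj1 : 1 ≤ j := (Nat.one_le_div_iff (by omega)).2 hYx
    have hjJ : j ≤ J := Nat.div_le_div_right hYs
    have hjm : j ∈ Icc 1 J := mem_Icc.2 ⟨hj1, hjJ⟩
    obtain ⟨g1, g2⟩ := hgrid j hjm
    have hjY : j * x0 ≤ Y := Nat.div_mul_le_self Y x0
    have hjY2 : Y - j * x0 ≤ x0 := by
      have h1 := Nat.div_add_mod Y x0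
      have h2 := Nat.mod_lt Y (show 0 < x0 by omega)
      rw [← hj] at h1
      have h3 : x0 * j = j * x0 := Nat.mul_comm _ _
      omega
    have hAj : A ∉ Ex Q N x0 (j * x0) R := fun h => hAE.2 (mem_biUnion.2 ⟨j, hjm, h⟩)
    have m1 := one_A hAB (U := R) (W := W) h0 g1 g2 hA1 hA.2 hAj hW0 (hmaj A hA.1 hA.2 hodd)
    rw [← hsd] at m1
    have hsplit : ∑ n ∈ Ioc 0 Y, th (F n + A) = ∑ n ∈ Ioc 0 x0, th (F n + A) + ∑ n ∈ Ioc x0 (j * x0), th (F n + A) +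
        ∑ n ∈ Ioc (j * x0) Y, th (F n + A) := by
      rw [sum_Ioc_consecutive _ (Nat.zero_le _) g1, sum_Ioc_consecutive _ (Nat.zero_le _) hjY]
    have hx0N : x0 ^ 2 ≤ N := (Nat.pow_le_pow_left hYx 2).trans hY
    obtain ⟨k1, k2⟩ := short (u := 0) (A := A) hlog4 hx0N hA.2
    rw [Nat.sub_zero] at k2
    obtain ⟨k3, k4⟩ := short (u := j * x0) (A := A) hlog4 hY hA.2
    have k5 : (x0 : ℝ) * (2 * X) ≤ 4 * (R * X) := by
      calc (x0 : ℝ) * (2 * X) ≤ (2 * R) * (2 * X) := by gcongr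
        _ = _ := by ring
    have k6 : ((Y - j * x0 : ℕ) : ℝ) * (2 * X) ≤ 4 * (R * X) := by
      refine le_trans ?_ k5
      have : ((Y - j * x0 : ℕ) : ℝ) ≤ x0 := by exact_mod_cast hjY2
      gcongr
    have k7 : 4 * W / x0 ≤ 4 * R := by
      rw [div_le_iff₀ hx00]
      have e1 : (N : ℝ) / X ^ (2 * b) = R * R := by
        rw [hR, div_mul_div_comm, hsN2, ← pow_add]
        congr 2
        ring
      calc 4 * W ≤ 4 * (R * R) := by rw [← e1]; gcongr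
        _ = 4 * R * R := by ring
        _ ≤ 4 * R * x0 := by gcongr
    have hjr : ((j * x0 : ℕ) : ℝ) ≤ Y := by exact_mod_cast hjY
    have hYr : (Y : ℝ) ≤ √(N : ℝ) := by
      refine le_trans ?_ hs0r
      exact_mod_cast hYs
    have hx0j : (x0 : ℝ) ≤ ((j * x0 : ℕ) : ℝ) := by exact_mod_cast g1
    have k8 : |(s - 2 * C) * (((j * x0 : ℕ) : ℝ) - x0)| ≤ R := by
      rw [abs_mul, abs_of_nonneg (by linarith : 0 ≤ ((j * x0 : ℕ) : ℝ) - x0)]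
      calc |s - 2 * C| * (((j * x0 : ℕ) : ℝ) - x0) ≤ (1 / X ^ b) * √(N : ℝ) := by gcongr; linarith
        _ = R := by rw [hR]; ring
    have k9 : |2 * C * (((j * x0 : ℕ) : ℝ) - x0 - Y)| ≤ (X ^ 2 + 1) * (4 * R) := by
      rw [abs_mul, abs_of_pos (by positivity : 0 < 2 * C)]
      have : |((j * x0 : ℕ) : ℝ) - x0 - Y| ≤ 4 * R := by
        have h1 : (Y : ℝ) - ((j * x0 : ℕ) : ℝ) ≤ x0 := by
          rw [← Nat.cast_sub hjY]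
          exact_mod_cast hjY2
        rw [abs_le]
        constructor <;> linarith
      gcongr
    have e : ∑ n ∈ Ioc 0 Y, th (F n + A) - 2 * C * Y = ∑ n ∈ Ioc 0 x0, th (F n + A) +
        (∑ n ∈ Ioc x0 (j * x0), th (F n + A) - s * (((j * x0 : ℕ) : ℝ) - x0)) +
        ∑ n ∈ Ioc (j * x0) Y, th (F n + A) + (s - 2 * C) * (((j * x0 : ℕ) : ℝ) - x0) +
        2 * C * (((j * x0 : ℕ) : ℝ) - x0 - Y) := by
      rw [hsplit]
      ring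
    rw [e]
    have n1 := (abs_le.1 m1)
    have n2 := (abs_le.1 k8)
    have n3 := (abs_le.1 k9)
    have k10 : 20 * (R * X) ≤ X ^ 2 * R := by
      calc 20 * (R * X) = (20 * X) * R := by ring
        _ ≤ X ^ 2 * R := by gcongr
    have k11 : (X ^ 2 + 1) * (4 * R) = 4 * (X ^ 2 * R) + 4 * R := by ring
    have k12 : 400 * R ≤ X ^ 2 * R := by gcongr
    have k13 : 20 * X ^ 2 * R = 20 * (X ^ 2 * R) := by ring
    rw [abs_le]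
    constructor <;> linarith

end Pool.Agent.P8H14.CF
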