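import Pool.Agent.P8H14.CF.F3
import Pool.Agent.P8H89.CF.Cs
import Pool.Agent.P8H96.CF.Ss
import Pool.Agent.P8H96.CF.Eul
import Pool.Agent.P8H67.CF.SM
import Pool.Agent.P8H67.CF.LG
import Pool.Agent.P8H67.CF.Tail
import Pool.Agent.P8H78.CF.TT
import Pool.Agent.P8H7.CF.Ab
import Pool.Agent.P8H7.CF.Pl
import Pool.Agent.P8H7.CF.Du

set_option autoImplicit false

/-!
# Conjecture F on average: the packages put together
-/

open Finset Filter Topology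

namespace Pool.Agent.P8H14.CF

open Pool.Agent.P8H14.QP (sav)
open Pool.Agent.TH823.PS (Most most_mono)

/-- Conjecture F for `A` up to `√N`, with the power `B` of the logarithm -/
def ConjF (B N A : ℕ) : Prop := ∃ C : ℝ, 0 < C ∧ IsC A C ∧ ∀ n : ℕ, n ^ 2 ≤ N →
    |(PA A n : ℝ) - C * LA A n| ≤ √(N : ℝ) / Real.log N ^ B ∧
    ((N : ℝ) ≤ n ^ 2 * Real.log N ^ (2 * B) → |(PA A n : ℝ) - C * LA A n| ≤ C * LA A n / Real.log N ^ B)

open Classical in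
theorem final (B : ℕ) {ε : ℝ} (hε : 0 < ε) : ∃ c : ℝ, 0 < c ∧ Most ε (fun N => ∀ M : ℕ, M ≤ N → (N : ℝ) ≤ sav c N * M →
    (((Icc 3 M).filter (fun A => Odd A ∧ ¬ ConjF B N A)).card : ℝ) ≤ M / sav c N) := by
  obtain ⟨c, hc, hmost⟩ := mainF Pool.Agent.P8H7.CF.du Pool.Agent.P8H7.CF.ab Pool.Agent.P8H78.CF.tt
    (Pool.Agent.P8H89.CF.cs Pool.Agent.P8H89.CF.cq) Pool.Agent.P8H96.CF.eul
    (Pool.Agent.P8H96.CF.SS.ss Pool.Agent.P8H96.CF.eul (Pool.Agent.P8H67.CF.tail Pool.Agent.P8H67.CF.sm Pool.Agent.P8H67.CF.lg))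
    Pool.Agent.P8H7.CF.pl B (ε := ε / 2) (by positivity)
  refine ⟨c / 2, by positivity, ?_⟩
  refine most_mono (N₁ := 1) hε hmost fun N _ hG M hMN hM => ?_
  obtain ⟨E, hE, hF⟩ := hG
  have hsub : (Icc 3 M).filter (fun A => Odd A ∧ ¬ ConjF B N A) ⊆ E := by
    intro A hA
    rw [mem_filter, mem_Icc] at hA
    by_contra hcon
    exact hA.2.2 (hF A (mem_Icc.2 ⟨hA.1.1, hA.1.2.trans hMN⟩) hA.2.1 hcon)
  have h1 : (((Icc 3 M).filter (fun A => Odd A ∧ ¬ ConjF B N A)).card : ℝ) ≤ E.card := by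
    exact_mod_cast card_le_card hsub
  have h2 : 0 < sav (c / 2) N := Real.exp_pos _
  have h3 : sav c N = sav (c / 2) N * sav (c / 2) N := by
    rw [Pool.Agent.P8H14.QP.Len.sav_mul]
    congr 1
    ring
  refine h1.trans (hE.trans ?_)
  rw [h3, ← div_div, div_le_div_iff_of_pos_right h2, div_le_iff₀ h2]
  linarith

end Pool.Agent.P8H14.CF
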